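import Pool.Agent.MP_6fd87c_lc.H6.Calc

/-! Edge operations, the derived operations `p` and `d`, and the one point extension lemma. -/

namespace Pool.Agent.MP_6fd87c_lc.H78

open Function

/-- An edge operation with `r + 3` arguments. -/
structure Edge (A : Type) where
  /-- number of near-unanimity arguments -/
  r : ℕ
  /-- the operation -/
  e : A → A → A → (Fin r → A) → A
  id1 : ∀ x y, e y y x (fun _ => x) = x
  id2 : ∀ x y, e y x y (fun _ => x) = x
  id3 : ∀ x y j, e x x x (update (fun _ => x) j y) = x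

variable {A : Type}

lemma exists_idem [Finite A] (F : A → A → A) :
    ∃ N : ℕ, ∀ x y, (F x)^[N + 1] ((F x)^[N + 1] y) = (F x)^[N + 1] y := by
  obtain ⟨i, j, hij, h⟩ : ∃ i j : ℕ, i < j ∧ ∀ x y, (F x)^[i] y = (F x)^[j] y := by
    obtain ⟨i, j, hne, h⟩ := Finite.exists_ne_map_eq_of_infinite
      (fun n : ℕ => fun x y => (F x)^[n] y)
    rcases lt_or_gt_of_ne hne with h1 | h1
    · exact ⟨i, j, h1, fun x y => congrFun (congrFun h x) y⟩
    · exact ⟨j, i, h1, fun x y => (congrFun (congrFun h x) y).symm⟩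
  obtain ⟨q, rfl⟩ := Nat.exists_eq_add_of_lt hij
  have key : ∀ l n x y, (F x)^[i + n + l * (q + 1)] y = (F x)^[i + n] y := by
    intro l
    induction l with
    | zero => simp
    | succ l ih =>
      intro n x y
      have e1 : i + n + (l + 1) * (q + 1) = (n + l * (q + 1)) + (i + q + 1) := by ring
      have e2 : i + n + l * (q + 1) = (n + l * (q + 1)) + i := by ring
      rw [e1, iterate_add_apply, ← h, ← iterate_add_apply, ← e2, ih]
  refine ⟨i * (q + 1) + q, fun x y => ?_⟩
  rw [← iterate_add_apply]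
  have e1 : i * (q + 1) + q + 1 = i + (i * q + q + 1) := by ring
  have e2 : i * (q + 1) + q + 1 + (i * (q + 1) + q + 1) =
      i + (i * q + q + 1) + (i + 1) * (q + 1) := by ring
  rw [e2, key, e1]

namespace Edge

variable (E : Edge A)

/-- The basic binary operation. -/
def d0 (x y : A) : A := E.e x x y fun _ => x

variable [Finite A]

/-- The number of iterations. -/
noncomputable def N : ℕ := Classical.choose (exists_idem E.d0)

/-- The ternary operation `p` with `p x y y = x`. -/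
noncomputable def p (x y z : A) : A := (E.d0 x)^[E.N] (E.e y x z fun _ => x)

/-- The binary operation `d x y = p x x y`. -/
noncomputable def d (x y : A) : A := E.p x x y

omit [Finite A] in
lemma d0_self (x : A) : E.d0 x x = x := E.id1 x x

lemma d_eq (x y : A) : E.d x y = (E.d0 x)^[E.N + 1] y := by
  rw [iterate_succ_apply]
  rfl

@[simp] lemma p_yy (x y : A) : E.p x y y = x := by
  unfold p
  rw [E.id2]
  exact iterate_fixed (E.d0_self x) _

@[simp] lemma p_xx (x y : A) : E.p x x y = E.d x y := rfl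

@[simp] lemma d_self (x : A) : E.d x x = x := E.p_yy x x

@[simp] lemma d_d (x y : A) : E.d x (E.d x y) = E.d x y := by
  rw [d_eq, d_eq]
  exact Classical.choose_spec (exists_idem E.d0) x y

/-- A set of functions is closed under the edge operation. -/
def Closed {Ω : Type} (K : Set (Ω → A)) : Prop :=
  ∀ (a b c : Ω → A) (h : Fin E.r → Ω → A), a ∈ K → b ∈ K → c ∈ K → (∀ j, h j ∈ K) →
    (fun x => E.e (a x) (b x) (c x) fun j => h j x) ∈ K

/-- A binary relation on functions is closed under the edge operation. -/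
def RClosed {Ω : Type} (T : (Ω → A) → (Ω → A) → Prop) : Prop :=
  ∀ (a a' b b' c c' : Ω → A) (h h' : Fin E.r → Ω → A), T a a' → T b b' → T c c' →
    (∀ j, T (h j) (h' j)) →
    T (fun x => E.e (a x) (b x) (c x) fun j => h j x)
      (fun x => E.e (a' x) (b' x) (c' x) fun j => h' j x)

variable {E}

lemma RClosed.p {Ω : Type} {T : (Ω → A) → (Ω → A) → Prop} (hT : E.RClosed T)
    {a a' b b' c c' : Ω → A} (ha : T a a') (hb : T b b') (hc : T c c') :
    T (fun x => E.p (a x) (b x) (c x)) (fun x => E.p (a' x) (b' x) (c' x)) := by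
  unfold Edge.p
  induction E.N with
  | zero => exact hT _ _ _ _ _ _ (fun _ => a) (fun _ => a') hb ha hc fun _ => ha
  | succ n ih =>
    simp only [iterate_succ_apply']
    exact hT _ _ _ _ _ _ (fun _ => a) (fun _ => a') ha ha ih fun _ => ha

lemma RClosed.d {Ω : Type} {T : (Ω → A) → (Ω → A) → Prop} (hT : E.RClosed T)
    {a a' b b' : Ω → A} (ha : T a a') (hb : T b b') :
    T (fun x => E.d (a x) (b x)) (fun x => E.d (a' x) (b' x)) := hT.p ha ha hb

lemma Closed.p {Ω : Type} {K : Set (Ω → A)} (hK : E.Closed K) {a b c : Ω → A}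
    (ha : a ∈ K) (hb : b ∈ K) (hc : c ∈ K) : (fun x => E.p (a x) (b x) (c x)) ∈ K :=
  RClosed.p (E := E) (T := fun a _ => a ∈ K)
    (fun a _ b _ c _ h _ ha hb hc hh => hK a b c h ha hb hc hh) (a' := a) (b' := b) (c' := c)
    ha hb hc

lemma Closed.d {Ω : Type} {K : Set (Ω → A)} (hK : E.Closed K) {a b : Ω → A}
    (ha : a ∈ K) (hb : b ∈ K) : (fun x => E.d (a x) (b x)) ∈ K := hK.p ha ha hb

/-- One point extension. `g` agrees with `φ` on `P`; small sets can be matched; the pair `(u, v)`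
agrees on `P`, has the values `(φ a, d (φ a) (g a))` at `a` and acts on `K`. -/
theorem ext {Ω : Type} {K : Set (Ω → A)} (hK : E.Closed K) (φ : Ω → A) (P : Finset Ω) (a : Ω)
    (small : ∀ I : Finset Ω, I ⊆ P → I.card ≤ E.r → ∃ h ∈ K, h a = φ a ∧ ∀ x ∈ I, h x = φ x)
    {g : Ω → A} (hg : g ∈ K) (hgP : ∀ x ∈ P, g x = φ x) {u v : Ω → A}
    (act : ∀ h ∈ K, (fun x => E.p (h x) (u x) (v x)) ∈ K) (huv : ∀ x ∈ P, u x = v x)
    (hu : u a = φ a) (hv : v a = E.d (φ a) (g a)) :
    ∃ h ∈ K, h a = φ a ∧ ∀ x ∈ P, h x = φ x := by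
  classical
  suffices H : ∀ n, ∀ T : Finset Ω, T.card = n → T ⊆ P →
      ∃ h ∈ K, h a = φ a ∧ ∀ x ∈ T, h x = φ x from H _ P rfl subset_rfl
  intro n
  induction n with
  | zero => exact fun T hT hTP => small T hTP (by omega)
  | succ n ih =>
    intro T hT hTP
    by_cases hr : T.card ≤ E.r
    · exact small T hTP hr
    obtain ⟨t, ht⟩ : ∃ t : Fin (E.r + 1) ↪ Ω, ∀ i, t i ∈ T := by
      obtain ⟨t, ht⟩ := Function.Embedding.exists_of_card_le_finset (α := Fin (E.r + 1)) (s := T)
        (by simp; omega)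
      exact ⟨t, fun i => ht ⟨i, rfl⟩⟩
    have hh : ∀ i, ∃ h ∈ K, h a = φ a ∧ ∀ x ∈ T, x ≠ t i → h x = φ x := fun i => by
      obtain ⟨h, h1, h2, h3⟩ := ih (T.erase (t i)) (by rw [Finset.card_erase_of_mem (ht i)]; omega)
        ((Finset.erase_subset _ _).trans hTP)
      exact ⟨h, h1, h2, fun x hx hne => h3 x (Finset.mem_erase.2 ⟨hne, hx⟩)⟩
    choose h hK1 ha hT' using hh
    have pat : ∀ x ∈ T, (x = t 0 → ∀ j : Fin E.r, h j.succ x = φ x) ∧
        (x ≠ t 0 → h 0 x = φ x ∧ ((∀ j : Fin E.r, h j.succ x = φ x) ∨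
          ∃ j y, (fun i : Fin E.r => h i.succ x) = update (fun _ => φ x) j y)) := by
      intro x hx
      refine ⟨fun h0 j => hT' _ x hx fun h1 => ?_, fun h0 => ⟨hT' 0 x hx h0, ?_⟩⟩
      · exact Fin.succ_ne_zero j (t.injective (h1.symm.trans h0))
      · by_cases hj : ∃ j : Fin E.r, x = t j.succ
        · obtain ⟨j, hj⟩ := hj
          refine Or.inr ⟨j, h j.succ x, funext fun i => ?_⟩
          by_cases hij : i = j
          · subst hij; simp
          · rw [update_of_ne hij]
            exact hT' _ x hx fun h1 => hij (Fin.succ_injective _ (t.injective (h1.symm.trans hj)))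
        · exact Or.inl fun j => hT' _ x hx fun h1 => hj ⟨j, h1⟩
    have w3 : ∀ n : ℕ, ∃ w ∈ K, w a = (E.d0 (φ a))^[n] (g a) ∧ ∀ x ∈ T, w x = φ x := by
      intro n
      induction n with
      | zero => exact ⟨g, hg, rfl, fun x hx => hgP x (hTP hx)⟩
      | succ n ihn =>
        obtain ⟨w, hw, hwa, hwT⟩ := ihn
        refine ⟨_, hK (h 0) (h 0) w (fun j => h j.succ) (hK1 0) (hK1 0) hw fun j => hK1 _, ?_, ?_⟩
        · simp only [ha, hwa, iterate_succ_apply']
          rfl
        · intro x hx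
          obtain ⟨p1, p2⟩ := pat x hx
          by_cases h0 : x = t 0
          · simp only [p1 h0, hwT x hx, E.id1]
          · obtain ⟨q1, q2 | ⟨j, y, q2⟩⟩ := p2 h0
            · simp only [q1, q2, hwT x hx, E.id1]
            · simp only [q1, q2, hwT x hx, E.id3]
    obtain ⟨w, hw, hwa, hwT⟩ := w3 (E.N + 1)
    rw [← E.d_eq] at hwa
    refine ⟨_, hK _ (h 0) w (fun j => h j.succ) (act _ (hK1 0)) (hK1 0) hw fun j => hK1 _, ?_, ?_⟩
    · simp only [ha, hwa, hu, hv, p_xx, d_d, E.id2]
    · intro x hx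
      obtain ⟨p1, p2⟩ := pat x hx
      simp only [huv x (hTP hx), p_yy]
      by_cases h0 : x = t 0
      · simp only [p1 h0, hwT x hx, E.id1]
      · obtain ⟨q1, q2 | ⟨j, y, q2⟩⟩ := p2 h0
        · simp only [q1, q2, hwT x hx, E.id1]
        · simp only [q1, q2, hwT x hx, E.id3]

end Edge

end Pool.Agent.MP_6fd87c_lc.H78
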