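import Pool.Agent.MP_6fd87c_lc.H78.Win

/-! Matching along a chain of letters that lead to lower states. -/

namespace Pool.Agent.MP_6fd87c_lc.H78

variable {A : Type} [Finite A] {E : Edge A}

namespace State

omit [Finite A] in
lemma cls_closed (s : State E) {m : ℕ} (h : Fn A m) (Q : (Fin m → A) → Prop) :
    E.Closed {g | s.T m h g ∧ ∀ x, Q x → g x = h x} := by
  intro a b c k ha hb hc hk
  refine ⟨?_, fun x hx => ?_⟩
  · simpa only [E.id1] using s.closed m _ _ _ _ _ _ (fun _ => h) k ha.1 hb.1 hc.1 fun j => (hk j).1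
  · simp only [ha.2 x hx, hb.2 x hx, hc.2 x hx, fun j => (hk j).2 x hx, E.id1]

lemma act (s : State E) {m : ℕ} {h g u v : Fn A m} (hg : s.T m h g) (huv : s.T m u v) :
    s.T m h fun x => E.p (g x) (u x) (v x) := by
  simpa using (s.closed m).p hg (s.left huv) huv

/-- The local target used to produce a fork. -/
noncomputable def tgt (E : Edge A) {Ω : Type} (h f g : Ω → A) : Ω → A :=
  fun x => E.d (h x) (E.p (h x) (f x) (E.d (f x) (g x)))

lemma tgt_T (s : State E) {m : ℕ} {k h f g : Fn A m} (hh : s.T m k h) (hf : s.T m k f)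
    (hg : s.T m k g) : s.T m h (tgt E h f g) := by
  have h1 : s.T m f g := s.trans (s.symm hf) hg
  have h2 : s.T m f fun x => E.d (f x) (g x) := by simpa using (s.closed m).d (s.left h1) h1
  have h3 := s.act (s.right hh) h2
  have h4 := (s.closed m).d (s.right hh) h3
  simp only [E.d_self] at h4
  exact h4

lemma tgt_eq {Ω : Type} {h f g : Ω → A} {x : Ω} (hx : g x = f x) : tgt E h f g x = h x := by
  simp [tgt, hx]

lemma tgt_at {Ω : Type} {h f g : Ω → A} {x : Ω} (hx : h x = f x) :
    tgt E h f g x = E.d (f x) (g x) := by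
  simp [tgt, hx]

@[simp] lemma d_tgt {Ω : Type} (h f g : Ω → A) (x : Ω) :
    E.d (h x) (tgt E h f g x) = tgt E h f g x := by
  simp [tgt]

/-- Targets that agree with the base over `U` can be matched at points with first letter in `S`
without change over `U`. -/
def Good (s : State E) (U S : Set A) : Prop :=
  ∃ t C : ℕ, ∀ (m : ℕ) (X : Finset (Fin (m + 1) → A)), (∀ x ∈ X, x 0 ∈ S) →
    ∃ W : Finset (Fin (m + 1) → Fin (m + 1) ⊕ A),
      (∀ ρ ∈ W, Adm s.O t ρ) ∧ W.card ≤ (X.card + m + 2) ^ C ∧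
      ∀ h f : Fn A (m + 1), s.T _ h h →
        (∀ ρ ∈ W, s.T _ (fun z => h (ev ρ z)) fun z => f (ev ρ z)) →
        (∀ x, x 0 ∈ U → f x = h x) →
        ∃ g', s.T _ h g' ∧ (∀ x, x 0 ∈ U → g' x = h x) ∧ ∀ x ∈ X, g' x = E.d (h x) (f x)

lemma good_empty (s : State E) (U : Set A) : s.Good U ∅ :=
  ⟨0, 0, fun _ _ hX => ⟨∅, by simp, by simp, fun h _ hh _ _ =>
    ⟨h, hh, fun _ _ => rfl, fun x hx => absurd (hX x hx) (Set.notMem_empty _)⟩⟩⟩

theorem good_step {s : State E} {U S : Set A} {c : A} (hg : s.Good U S)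
    (hm : (s.sub (U ∪ S) c).Match) : s.Good U (insert c S) := by
  classical
  obtain ⟨t, C, hg⟩ := hg
  obtain ⟨t1, C1, hm⟩ := hm
  set κ := (Nat.card A + 1) ^ (t1 + 1)
  obtain ⟨C', hC'⟩ := ((PB.id.pow C1).add
    ((PB.id.add ((PB.id.pow C1).mul (PB.const κ))).pow C)).add
    (((PB.id.add PB.id).add ((PB.id.pow C1).mul (PB.const κ))).pow (E.r + 1))
  refine ⟨max (max t (t1 + 1)) (2 * (Nat.card A + 1) ^ (E.r + 1)), C', fun m X hX => ?_⟩
  obtain ⟨W1, a1, n1, m1⟩ := hm m (X.image Fin.tail)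
  choose Y hY1 hY2 using fun ρ : W1 => (a1 ρ.1 ρ.2).lift.image
  set X' := (X ∪ Finset.univ.biUnion Y).filter fun x => x 0 ∈ S with hX'
  obtain ⟨W2, a2, n2, m2⟩ := hg m X' fun x hx => (Finset.mem_filter.1 hx).2
  obtain ⟨W3, a3, n3, m3⟩ := small_windows s.O (E.r + 1) m (X' ∪ X)
  refine ⟨W1.image (fun ρ => lift ρ c) ∪ W2 ∪ W3, fun ρ hρ => ?_, ?_, fun h f hh hl hU => ?_⟩
  · rcases Finset.mem_union.1 hρ with hρ | hρ
    · rcases Finset.mem_union.1 hρ with hρ | hρ
      · obtain ⟨ρ, h1, rfl⟩ := Finset.mem_image.1 hρ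
        exact (a1 ρ h1).lift.mono (by omega)
      · exact (a2 ρ hρ).mono (by omega)
    · exact (a3 ρ hρ).1.mono (by omega)
  · set y := X.card + m + 2
    have b1 : W1.card ≤ y ^ C1 := n1.trans (Nat.pow_le_pow_left (by
      have := Finset.card_image_le (s := X) (f := Fin.tail); omega) _)
    have b2 : X'.card ≤ X.card + y ^ C1 * κ := by
      refine (Finset.card_filter_le _ _).trans ((Finset.card_union_le _ _).trans ?_)
      have := Finset.card_biUnion_le_card_mul Finset.univ Y κ fun j _ => hY1 j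
      rw [Finset.card_univ, Fintype.card_coe] at this
      have := Nat.mul_le_mul_right κ b1
      omega
    have b3 : W2.card ≤ (y + y ^ C1 * κ) ^ C := n2.trans (Nat.pow_le_pow_left (by omega) _)
    have b4 : W3.card ≤ (y + y + y ^ C1 * κ) ^ (E.r + 1) := n3.trans (Nat.pow_le_pow_left (by
      have := Finset.card_union_le X' X; omega) _)
    have b5 := hC' y (by omega)
    simp only at b5
    have b6 := Finset.card_union_le (W1.image (fun ρ => lift ρ c) ∪ W2) W3
    have b7 := Finset.card_union_le (W1.image fun ρ => lift ρ c) W2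
    have b8 := Finset.card_image_le (s := W1) (f := fun ρ => lift ρ c)
    omega
  · set φ : Fn A (m + 1) := fun x => E.d (h x) (f x) with hφ
    have hφU : ∀ x, x 0 ∈ U → φ x = h x := fun x hx => by simp [hφ, hU x hx]
    have hl' : ∀ ρ ∈ W1.image (fun ρ => lift ρ c) ∪ W2 ∪ W3,
        s.T _ (fun z => h (ev ρ z)) fun z => φ (ev ρ z) := fun ρ hρ => by
      simpa using (s.closed _).d (s.left (hl ρ hρ)) (hl ρ hρ)
    obtain ⟨g, ⟨g1, g2⟩, g3⟩ := match_all (s.cls_closed h fun x => x 0 ∈ U) φ X' X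
      (fun I hI hc => by
        obtain ⟨ρ, h1, h2⟩ := m3 I hI hc
        refine ⟨_, ⟨s.act hh (hl' ρ (Finset.mem_union_right _ h1)), fun x hx => ?_⟩,
          fun x hx => ?_⟩
        · rw [hφU _ (by rw [(a3 ρ h1).2]; exact hx), E.p_yy]
        · simp [h2 x hx, hφ])
      (by
        obtain ⟨g, h1, h2, h3⟩ := m2 h f hh
          (fun ρ hρ => hl ρ (Finset.mem_union_left _ (Finset.mem_union_right _ hρ))) hU
        exact ⟨g, ⟨h1, h2⟩, h3⟩)
      (fun P hP1 hP2 a ha g hg k hk hgP hka => by
        by_cases haS : a 0 ∈ S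
        · have haP : a ∈ P := hP1 (Finset.mem_filter.2 ⟨Finset.mem_union_left _ ha, haS⟩)
          refine ⟨k, k, fun w hw => by simpa using hw, fun _ _ => rfl, hka, ?_⟩
          rw [hgP a haP, E.d_self, hka]
        have hac : a 0 = c := (hX a ha).resolve_right haS
        have kk : s.T _ k k := s.right hk.1
        obtain ⟨v0, v1, v2⟩ := m1 (fix k c) (fix (tgt E k φ g) c)
          (.single ⟨k, k, kk, fun _ _ => rfl, rfl, rfl⟩) fun ρ hρ => by
            have hc := lift_const (a1 ρ hρ).1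
            refine .single ⟨_, _, s.tgt_T (s.subst _ hc hk.1) (hl' _ (Finset.mem_union_left _
              (Finset.mem_union_left _ (Finset.mem_image_of_mem _ hρ)))) (s.subst _ hc hg.1),
              fun x hx => (tgt_eq ?_).symm, ?_, ?_⟩
            · rcases hx with hx | hx
              · have hx' : ev (lift ρ c) x 0 ∈ U := hx
                rw [hg.2 _ hx', hφU _ hx']
              · exact hgP _ (hP1 (Finset.mem_filter.2 ⟨Finset.mem_union_right _
                  (Finset.mem_biUnion.2 ⟨⟨ρ, hρ⟩, Finset.mem_univ _, hY2 _ _⟩), hx⟩))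
            · funext z
              simp only [fix, ev_lift_cons]
            · funext z
              simp only [fix, tgt, ev_lift_cons]
        obtain ⟨u, v, huv, hlow, hu, hv⟩ := dir_of_sub v1
        have val : ∀ x ∈ X, x 0 = c → u x = k x ∧ v x = tgt E k φ g x := fun x hx hxc => by
          have e1 : Fin.cons c (Fin.tail x) = x := by rw [← hxc]; exact Fin.cons_self_tail x
          have e2 := congrFun hu (Fin.tail x)
          have e3 := congrFun hv (Fin.tail x)
          rw [v2 _ (Finset.mem_image_of_mem _ hx)] at e3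
          simp only [fix, e1, d_tgt] at e2 e3
          exact ⟨e2.symm, e3.symm⟩
        refine ⟨u, v, fun w hw => ⟨s.act hw.1 huv, fun x hx => ?_⟩, fun x hx => ?_, ?_, ?_⟩
        · simp only [hlow x (Or.inl hx), E.p_yy, hw.2 x hx]
        · by_cases hxS : x 0 ∈ S
          · exact hlow x (Or.inr hxS)
          · have hxX : x ∈ X := (Finset.mem_union.1 (hP2 hx)).resolve_left
              fun h1 => hxS (Finset.mem_filter.1 h1).2
            obtain ⟨e1, e2⟩ := val x hxX ((hX x hxX).resolve_right hxS)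
            rw [e1, e2, tgt_eq (hgP x hx)]
        · rw [(val a ha hac).1, hka]
        · rw [(val a ha hac).2, tgt_at hka])
    exact ⟨g, g1, g2, fun x hx => g3 x (Finset.mem_union_right _ hx)⟩

end State

end Pool.Agent.MP_6fd87c_lc.H78
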