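import Pool.Agent.MP_6fd87c_lc.H78.Chain

/-! Classes of letters and the main induction. -/

namespace Pool.Agent.MP_6fd87c_lc.H78

variable {A : Type} [Finite A] {E : Edge A}

namespace State

/-- Matching for sets of at most `n` points with property `Q`, with `β` windows per point. -/
def Mt (s : State E) (t m n β : ℕ) (Q : (Fin m → A) → Prop) : Prop :=
  ∀ X : Finset (Fin m → A), X.card ≤ n → (∀ x ∈ X, Q x) →
    ∃ W : Finset (Fin m → Fin m ⊕ A), (∀ ρ ∈ W, Adm s.O t ρ) ∧ W.card ≤ X.card * β ∧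
      ∀ g f : Fn A m, s.T m g g →
        (∀ ρ ∈ W, s.T m (fun z => g (ev ρ z)) fun z => f (ev ρ z)) →
        ∃ g', s.T m g g' ∧ ∀ x ∈ X, g' x = E.d (g x) (f x)

/-- The step from length `m` to length `m + 1` for points with first letter in `S`. -/
def Step (s : State E) (S : Set A) : Prop :=
  ∃ t C : ℕ, ∀ t0, t ≤ t0 → ∀ m n β, s.Mt t0 m n β (fun _ => True) →
    s.Mt t0 (m + 1) n (β + (n + m + 2) ^ C) fun x => x 0 ∈ S

lemma step_noroot {s : State E} {S : Set A} (hg : s.Good ∅ S) : s.Step S := by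
  obtain ⟨t, C, hg⟩ := hg
  refine ⟨t, C, fun t0 ht m n β _ X hn hX => ?_⟩
  rcases X.eq_empty_or_nonempty with rfl | hne
  · exact ⟨∅, by simp, by simp, fun g _ hg _ => ⟨g, hg, by simp⟩⟩
  obtain ⟨W, a1, n1, m1⟩ := hg m X hX
  refine ⟨W, fun ρ hρ => (a1 ρ hρ).mono ht, ?_, fun g f h1 h2 => ?_⟩
  · have h1 : (X.card + m + 2) ^ C ≤ (n + m + 2) ^ C := Nat.pow_le_pow_left (by omega) _
    have h2 := Finset.card_pos.2 hne
    nlinarith [Nat.zero_le β]
  · obtain ⟨g', k1, -, k2⟩ := m1 g f h1 h2 (by simp)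
    exact ⟨g', k1, k2⟩

theorem step_root {s : State E} {S : Set A} {b : A} (hb : b ∈ s.O) (hg : s.Good {b} S) :
    s.Step (insert b S) := by
  classical
  obtain ⟨t, C, hg⟩ := hg
  obtain ⟨C', hC'⟩ := ((PB.id.pow C).add (PB.id.pow C)).add ((PB.id.add PB.id).pow (E.r + 1))
  refine ⟨max t (2 * (Nat.card A + 1) ^ (E.r + 1)), C', fun t0 ht m n β ih X hn hX => ?_⟩
  rcases X.eq_empty_or_nonempty with rfl | hne
  · exact ⟨∅, by simp, by simp, fun g _ hg _ => ⟨g, hg, by simp⟩⟩
  have c1 := Finset.card_image_le (s := X) (f := Fin.tail)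
  obtain ⟨W1, a1, n1, m1⟩ := ih (X.image Fin.tail) (c1.trans hn) fun _ _ => trivial
  set X' := X.filter fun x => x 0 ∈ S with hX'
  obtain ⟨W2, a2, n2, m2⟩ := hg m X' fun x hx => (Finset.mem_filter.1 hx).2
  set Z0 : Finset (Fin (m + 1) → A) := X.image fun x => Fin.cons b (Fin.tail x) with hZ0
  obtain ⟨W3, a3, n3, m3⟩ := small_windows s.O (E.r + 1) m (Z0 ∪ X)
  refine ⟨W1.image (fun ρ => front ρ b) ∪ (W2 ∪ W2.image fun ρ => shadow ρ b) ∪ W3,
    fun ρ hρ => ?_, ?_, fun g f gg hl => ?_⟩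
  · rcases Finset.mem_union.1 hρ with hρ | hρ
    · rcases Finset.mem_union.1 hρ with hρ | hρ
      · obtain ⟨ρ, h1, rfl⟩ := Finset.mem_image.1 hρ
        exact (a1 ρ h1).front hb
      · rcases Finset.mem_union.1 hρ with hρ | hρ
        · exact (a2 ρ hρ).mono (by omega)
        · obtain ⟨ρ, h1, rfl⟩ := Finset.mem_image.1 hρ
          exact ((a2 ρ h1).shadow hb).mono (by omega)
    · exact (a3 ρ hρ).1.mono (by omega)
  · set y := n + m + 2
    have b1 : W1.card ≤ X.card * β := n1.trans (Nat.mul_le_mul_right _ c1)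
    have b2 : W2.card ≤ y ^ C := n2.trans (Nat.pow_le_pow_left (by
      have : X'.card ≤ X.card := Finset.card_filter_le _ _
      omega) _)
    have b3 : W3.card ≤ (y + y) ^ (E.r + 1) := n3.trans (Nat.pow_le_pow_left (by
      have := Finset.card_union_le Z0 X
      have : Z0.card ≤ X.card := Finset.card_image_le
      omega) _)
    have b5 := hC' y (by omega)
    simp only at b5
    have b6 := Finset.card_union_le
      (W1.image (fun ρ => front ρ b) ∪ (W2 ∪ W2.image fun ρ => shadow ρ b)) W3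
    have b7 := Finset.card_union_le (W1.image fun ρ => front ρ b)
      (W2 ∪ W2.image fun ρ => shadow ρ b)
    have b8 := Finset.card_union_le W2 (W2.image fun ρ => shadow ρ b)
    have b9 := Finset.card_image_le (s := W1) (f := fun ρ => front ρ b)
    have b10 := Finset.card_image_le (s := W2) (f := fun ρ => shadow ρ b)
    have b11 : y ^ C' ≤ X.card * y ^ C' := Nat.le_mul_of_pos_left _ (Finset.card_pos.2 hne)
    rw [mul_add]
    omega
  · set φ : Fn A (m + 1) := fun x => E.d (g x) (f x) with hφ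
    have hl' : ∀ ρ ∈ W1.image (fun ρ => front ρ b) ∪ (W2 ∪ W2.image fun ρ => shadow ρ b) ∪ W3,
        s.T _ (fun z => g (ev ρ z)) fun z => φ (ev ρ z) := fun ρ hρ => by
      simpa using (s.closed _).d (s.left (hl ρ hρ)) (hl ρ hρ)
    obtain ⟨g', ⟨g1, -⟩, g3⟩ := match_all (s.cls_closed g fun _ => False) φ Z0 X
      (fun I hI hc => by
        obtain ⟨ρ, h1, h2⟩ := m3 I hI hc
        refine ⟨_, ⟨s.act gg (hl' ρ (Finset.mem_union_right _ h1)), by simp⟩, fun x hx => ?_⟩
        simp [h2 x hx, hφ])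
      (by
        obtain ⟨g0, h1, h2⟩ := m1 (fix g b) (fix φ b) (s.fix_T hb gg) fun ρ hρ => by
          have := s.fix_T hb (hl' _ (Finset.mem_union_left _ (Finset.mem_union_left _
            (Finset.mem_image_of_mem _ hρ))))
          unfold fix at this ⊢
          simpa only [ev_front, Fin.tail_cons] using this
        refine ⟨_, ⟨s.act gg (s.tail_T h1), by simp⟩, fun x hx => ?_⟩
        obtain ⟨y, hy, rfl⟩ := Finset.mem_image.1 hx
        simp [h2 _ (Finset.mem_image_of_mem _ hy), fix, hφ])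
      (fun P hP1 hP2 a ha k hk h hh hkP hha => by
        by_cases haP : a ∈ P
        · refine ⟨h, h, fun w hw => by simpa using hw, fun _ _ => rfl, hha, ?_⟩
          rw [hkP a haP, E.d_self, hha]
        have cb : ∀ x : Fin (m + 1) → A, x 0 = b → Fin.cons b (Fin.tail x) = x := fun x hx => by
          rw [← hx]; exact Fin.cons_self_tail x
        have inS : ∀ x ∈ X, x 0 ≠ b → x ∈ X' := fun x hx hxb =>
          Finset.mem_filter.2 ⟨hx, (hX x hx).resolve_left hxb⟩
        have hab : a 0 ≠ b := fun h1 => haP (hP1 (Finset.mem_image.2 ⟨a, ha, cb a h1⟩))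
        set f' := tgt E h φ k with hf'
        obtain ⟨v, v1, v2, v3⟩ := m2 h (fun x => E.p (h x) (E.p (h x) (h (Fin.cons b (Fin.tail x)))
            (f' (Fin.cons b (Fin.tail x)))) (f' x)) (s.right hh.1) (fun ρ hρ => by
            have key : ∀ τ, τ ∈ W2 ∪ W2.image (fun ρ => shadow ρ b) → Adm s.O t τ →
                s.T _ (fun z => h (ev τ z)) fun z => f' (ev τ z) := fun τ h1 h2 =>
              s.tgt_T (s.subst _ h2.1 hh.1)
                (hl' τ (Finset.mem_union_left _ (Finset.mem_union_right _ h1)))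
                (s.subst _ h2.1 hk.1)
            have k1 := key ρ (Finset.mem_union_left _ hρ) (a2 ρ hρ)
            have k2 := key _ (Finset.mem_union_right _ (Finset.mem_image_of_mem _ hρ))
              ((a2 ρ hρ).shadow hb)
            simp only [ev_shadow] at k2
            simpa using (s.closed _).p (s.left k1) (s.act (s.left k1) k2) k1)
          (fun x hx => by simp [cb x hx, hf'])
        have val : ∀ x ∈ X, x 0 ≠ b → v x = f' x := fun x hx hxb => by
          have : f' (Fin.cons b (Fin.tail x)) = h (Fin.cons b (Fin.tail x)) :=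
            tgt_eq (hkP _ (hP1 (Finset.mem_image_of_mem _ hx)))
          rw [v3 x (inS x hx hxb), this]
          simp [hf']
        refine ⟨h, v, fun w hw => ⟨s.act hw.1 v1, by simp⟩, fun x hx => ?_, hha, ?_⟩
        · by_cases hxb : x 0 = b
          · exact (v2 x hxb).symm
          · have hxX : x ∈ X := (Finset.mem_union.1 (hP2 hx)).resolve_left fun h1 => by
              obtain ⟨y, -, rfl⟩ := Finset.mem_image.1 h1
              exact hxb rfl
            rw [val x hxX hxb, hf', tgt_eq (hkP x hx)]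
        · rw [val a ha hab, hf', tgt_at hha])
    exact ⟨g', g1, fun x hx => g3 x (Finset.mem_union_right _ hx)⟩

theorem step_union {s : State E} {U V : Set A} (hU : s.Step U) (hV : s.Step V)
    (hc : ∀ c ∈ V, s.Cl U c) (hd : Disjoint U V) : s.Step (U ∪ V) := by
  classical
  obtain ⟨t1, C1, hU⟩ := hU
  obtain ⟨t2, C2, hV⟩ := hV
  refine ⟨max t1 t2, max C1 C2, fun t0 ht m n β ih X hn hX => ?_⟩
  have c1 := Finset.card_filter_add_card_filter_not (s := X) fun x => x 0 ∈ U
  obtain ⟨W1, a1, n1, m1⟩ := hU t0 (by omega) m n β ih (X.filter fun x => x 0 ∈ U) (by omega)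
    fun x hx => (Finset.mem_filter.1 hx).2
  obtain ⟨W2, a2, n2, m2⟩ := hV t0 (by omega) m n β ih (X.filter fun x => ¬ x 0 ∈ U) (by omega)
    fun x hx => (hX x (Finset.mem_filter.1 hx).1).resolve_left (Finset.mem_filter.1 hx).2
  refine ⟨W1 ∪ W2, fun ρ hρ => (Finset.mem_union.1 hρ).elim (a1 ρ) (a2 ρ), ?_,
    fun g f gg hl => ?_⟩
  · have p1 : (n + m + 2) ^ C1 ≤ (n + m + 2) ^ max C1 C2 :=
      Nat.pow_le_pow_right (by omega) (by omega)
    have p2 : (n + m + 2) ^ C2 ≤ (n + m + 2) ^ max C1 C2 :=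
      Nat.pow_le_pow_right (by omega) (by omega)
    rw [← c1, add_mul]
    exact (Finset.card_union_le _ _).trans (add_le_add
      (n1.trans (Nat.mul_le_mul_left _ (by omega))) (n2.trans (Nat.mul_le_mul_left _ (by omega))))
  · obtain ⟨g1, k1, k2⟩ := m1 g f gg fun ρ hρ => hl ρ (Finset.mem_union_left _ hρ)
    obtain ⟨g2, l1, l2⟩ := m2 g f gg fun ρ hρ => hl ρ (Finset.mem_union_right _ hρ)
    obtain ⟨h1, p1, p2, p3⟩ := patch hc (m + 1) 0 g g1 k1
    obtain ⟨h2, q1, q2, q3⟩ := patch hc (m + 1) 0 g g2 l1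
    refine ⟨_, by simpa using (s.closed _).p p1 q1 ((s.closed _).d gg l1), fun x hx => ?_⟩
    rcases hX x hx with hxU | hxV
    · simp [p3 x hxU, q3 x hxU, k2 x (Finset.mem_filter.2 ⟨hx, hxU⟩)]
    · have hxU : x 0 ∉ U := fun h => Set.disjoint_left.1 hd h hxV
      simp [p2 x hxV, q2 x hxV, l2 x (Finset.mem_filter.2 ⟨hx, hxU⟩)]

lemma greedy {s : State E} (ih : ∀ s' : State E, s'.Lt s → s'.Match) (U W : Set A) :
    ∃ S ⊆ W, s.Good U S ∧ ∀ c ∈ W, c ∉ S → s.Cl (U ∪ S) c := by
  obtain ⟨S, ⟨h1, h2⟩, h3⟩ := (Finite.to_wellFoundedGT (α := Set A)).wf.has_min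
    {S | S ⊆ W ∧ s.Good U S} ⟨∅, Set.empty_subset _, s.good_empty U⟩
  refine ⟨S, h1, h2, fun c hc hcS => ?_⟩
  by_contra hn
  exact h3 (insert c S) ⟨Set.insert_subset hc h1, good_step h2 (ih _ (sub_lt hn))⟩
    (Set.ssubset_insert hcS)

lemma step_all {s : State E} (ih : ∀ s' : State E, s'.Lt s → s'.Match) (W : Set A) :
    s.Step W := by
  induction W using (Finite.to_wellFoundedLT (α := Set A)).wf.induction with
  | _ W ihW =>
    by_cases hW : ∃ b ∈ W, b ∈ s.O
    · obtain ⟨b, hbW, hb⟩ := hW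
      obtain ⟨S, h1, h2, h3⟩ := greedy ih {b} W
      have hU : insert b S ⊆ W := Set.insert_subset hbW h1
      have := step_union (step_root hb h2)
        (ihW (W \ insert b S) (Set.sdiff_ssubset_left_iff.2 ⟨b, hbW, Set.mem_insert _ _⟩))
        (fun c hc => h3 c hc.1 fun h => hc.2 (Set.mem_insert_of_mem _ h)) Set.disjoint_sdiff_right
      rwa [Set.union_sdiff_cancel hU] at this
    · obtain ⟨S, h1, h2, h3⟩ := greedy ih ∅ W
      have : S = W := h1.antisymm fun c hc => by
        by_contra hn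
        exact hW ⟨c, hc, (h3 c hc hn).1⟩
      exact this ▸ step_noroot h2

theorem match_of_lower {s : State E} (ih : ∀ s' : State E, s'.Lt s → s'.Match) : s.Match := by
  obtain ⟨t, C, hs⟩ := step_all ih Set.univ
  have key : ∀ n m, s.Mt t m n ((m + 1) * (n + m + 2) ^ C) fun _ => True := by
    intro n m
    induction m with
    | zero =>
      intro X hn _
      rcases X.eq_empty_or_nonempty with rfl | hne
      · exact ⟨∅, by simp, by simp, fun g _ hg _ => ⟨g, hg, by simp⟩⟩
      refine ⟨{fun i => Sum.inl i}, fun ρ _ => ⟨fun i => i.elim0, ∅, by simp, fun i => i.elim0⟩,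
        ?_, fun g f gg hl => ⟨_, ?_, fun _ _ => rfl⟩⟩
      · rw [Finset.card_singleton]
        exact Nat.mul_pos (Finset.card_pos.2 hne) (by positivity)
      · have h1 : s.T 0 g f := hl _ (Finset.mem_singleton_self _)
        simpa using (s.closed _).d gg h1
    | succ m ihm =>
      intro X hn _
      obtain ⟨W, h1, h2, h3⟩ := hs t le_rfl m n _ ihm X hn fun _ _ => Set.mem_univ _
      refine ⟨W, h1, h2.trans (Nat.mul_le_mul_left _ ?_), h3⟩
      have : (n + m + 2) ^ C ≤ (n + (m + 1) + 2) ^ C := Nat.pow_le_pow_left (by omega) _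
      nlinarith
  refine ⟨t, C + 2, fun m X => ?_⟩
  obtain ⟨W, h1, h2, h3⟩ := key X.card m X le_rfl fun _ _ => trivial
  refine ⟨W, h1, h2.trans ?_, h3⟩
  rw [← mul_assoc, pow_add, mul_comm, sq]
  exact Nat.mul_le_mul_left _ (Nat.mul_le_mul (by omega) (by omega))

end State

theorem core (wf : WfStmt) : CoreStmt := fun A _ E s =>
  (wf A E).induction s fun _ ih => State.match_of_lower ih

end Pool.Agent.MP_6fd87c_lc.H78
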