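import Pool.Agent.MP_6fd87c_lc.H78.Spec

/-! Short pp-definitions give few subpowers. -/

namespace Pool.Agent.MP_6fd87c_lc.H78

open Pool.Agent.MP_6fd87c_lc.H6

namespace CountAux

variable {A : Type} (Γ : Lang A)

/-- Codes of atomic formulas. -/
abbrev Code (V : Type) : Type := (Σ i : Fin Γ.num, Fin (Γ.ar i) → V) ⊕ V × V

/-- The atomic formula with a given code. -/
def atom {V : Type} : Code Γ V → Atom Γ V
  | .inl c => .rel c.1 c.2
  | .inr c => .eq c.1 c.2

lemma atom_surj {V : Type} : Function.Surjective (atom Γ (V := V))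
  | .rel i z => ⟨.inl ⟨i, z⟩, rfl⟩
  | .eq u v => ⟨.inr (u, v), rfl⟩

lemma card_code (n k : ℕ) : Fintype.card (Code Γ (Fin n ⊕ Fin k)) =
    ∑ i, (n + k) ^ Γ.ar i + (n + k) ^ 2 := by
  simp [pow_two]

/-- The relation defined by a set of atomic formulas. -/
def rel {n L : ℕ} (c : Σ k : Fin (L + 1), Set (Code Γ (Fin n ⊕ Fin k))) : Set (Fin n → A) :=
  {x | ∃ y : Fin c.1 → A, ∀ t ∈ c.2, (atom Γ t).Holds (Sum.elim x y)}

lemma exists_rel {n L : ℕ} {R : Set (Fin n → A)} (h : DefinedWithin Γ R L) :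
    ∃ c, rel Γ (L := L) c = R := by
  obtain ⟨k, φ, h1, h2⟩ := h
  refine ⟨⟨⟨k, by omega⟩, {t | atom Γ t ∈ φ}⟩, Set.ext fun x => ?_⟩
  rw [h2]
  refine exists_congr fun y => ⟨fun h a ha => ?_, fun h t ht => h _ ht⟩
  obtain ⟨t, rfl⟩ := atom_surj Γ a
  exact h t ha

end CountAux

open CountAux Polynomial in
theorem count : CountStmt := by
  rintro A _ Γ ⟨p, hp⟩
  classical
  refine ⟨p + (∑ i, (X + p) ^ Γ.ar i + (X + p) ^ 2), fun n => ?_⟩
  choose g hg using fun R : {R : Set (Fin n → A) // PPDefinable Γ R} =>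
    exists_rel Γ (hp n R.1 R.2)
  have hi : Function.Injective g := fun R R' h => Subtype.ext (by rw [← hg R, ← hg R', h])
  refine (Nat.card_le_card_of_injective g hi).trans ?_
  rw [Nat.card_eq_fintype_card, Fintype.card_sigma]
  calc _ ≤ ∑ _k : Fin (p.eval n + 1),
        2 ^ (∑ i, (n + p.eval n) ^ Γ.ar i + (n + p.eval n) ^ 2) := by
        refine Finset.sum_le_sum fun k _ => ?_
        have hk : (k : ℕ) ≤ p.eval n := Nat.lt_succ_iff.1 k.isLt
        rw [Fintype.card_set, card_code]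
        gcongr
        norm_num
    _ ≤ 2 ^ p.eval n * 2 ^ (∑ i, (n + p.eval n) ^ Γ.ar i + (n + p.eval n) ^ 2) := by
        rw [Finset.sum_const, Finset.card_univ, Fintype.card_fin, smul_eq_mul]
        exact Nat.mul_le_mul_right _ Nat.lt_two_pow_self
    _ = _ := by
        rw [← pow_add]
        simp [eval_finsetSum]

end Pool.Agent.MP_6fd87c_lc.H78
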