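import Pool.Agent.MP_6fd87c_lc.H6.Defs

/-! Few subpowers and pp-interpretations. -/

namespace Pool.Agent.MP_6fd87c_lc.H78

open Pool.Agent.MP_6fd87c_lc.H6

/-- `Γ` has few subpowers: at most `2 ^ q(n)` relations of arity `n` are pp-definable. -/
def FewSubpowers {A : Type} (Γ : Lang A) : Prop :=
  ∃ q : Polynomial ℕ, ∀ n : ℕ,
    Nat.card {R : Set (Fin n → A) // PPDefinable Γ R} ≤ 2 ^ q.eval n

/-- `Δ` is pp-interpretable in `Γ`: there are `d ≥ 1`, `D ⊆ A ^ d` and a surjection `h : D → B`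
such that `D`, the kernel of `h` and the preimages of the relations of `Δ` are pp-definable from
`Γ`. A tuple of `m` elements of `A ^ d` is a tuple indexed by `Fin m × Fin d`. -/
def Interp {A B : Type} (Γ : Lang A) (Δ : Lang B) : Prop :=
  ∃ (d : ℕ) (D : Set (Fin d → A)) (h : D → B), 1 ≤ d ∧ Function.Surjective h ∧
    PPDefinable Γ D ∧
    PPDefinable Γ {w : Fin 2 × Fin d → A |
      ∃ u : Fin 2 → D, (∀ j l, w (j, l) = (u j).1 l) ∧ h (u 0) = h (u 1)} ∧
    ∀ i : Fin Δ.num, PPDefinable Γ {w : Fin (Δ.ar i) × Fin d → A |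
      ∃ u : Fin (Δ.ar i) → D, (∀ j l, w (j, l) = (u j).1 l) ∧ (fun j => h (u j)) ∈ Δ.rel i}

end Pool.Agent.MP_6fd87c_lc.H78
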