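import Pool.Agent.MP_6fd87c_lc.H78.Spec

/-! Few subpowers give an edge polymorphism. -/

namespace Pool.Agent.MP_6fd87c_lc.H78

open Pool.Agent.MP_6fd87c_lc.H6

namespace EdgePf

variable {A : Type} {Γ : Lang A} {ι : Type} [DecidableEq ι]

/-- The column of a set. -/
def chi (S : Finset ι) (i : ι) (x y : A) : A := if i ∈ S then y else x

/-- The column `c` is generated by the columns of the sets of `D`. -/
def Gen (Γ : Lang A) (D : Set (Finset ι)) (c : ι → A → A → A) : Prop :=
  ∃ t : (D → A) → A, IsPol Γ t ∧ ∀ i x y, t (fun S => chi S.1 i x y) = c i x y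

lemma Gen.gen {D : Set (Finset ι)} {S : Finset ι} (hS : S ∈ D) : Gen Γ D (chi S) :=
  ⟨fun z => z ⟨S, hS⟩, isPol_proj _, fun _ _ _ => rfl⟩

lemma Gen.app {D : Set (Finset ι)} {M : Type} {t : (M → A) → A} (ht : IsPol Γ t)
    {c : M → ι → A → A → A} (hc : ∀ m, Gen Γ D (c m)) {c' : ι → A → A → A}
    (h : ∀ i x y, t (fun m => c m i x y) = c' i x y) : Gen Γ D c' := by
  choose s hs hs' using hc
  refine ⟨fun z => t fun m => s m z, ht.comp hs, fun i x y => ?_⟩
  simp only [hs', h]

/-- There is a cube polymorphism for the family `D`. -/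
def Cube (Γ : Lang A) (D : Set (Finset ι)) : Prop := Gen Γ D fun _ x _ => x

lemma remove {D D' : Set (Finset ι)} (i : ι) (Q : Finset ι)
    (h0 : ∀ S ∈ D, i ∉ S → S ∈ D') (h1 : ∀ S ∈ D, i ∈ S → S ≠ {i} → S.erase i ∈ D')
    (h2 : {i} ∈ D') (hQ : i ∉ Q) (hQ1 : Q ∈ D') (hQ2 : insert i Q ∈ D') (h : Cube Γ D) :
    Cube Γ D' := by
  classical
  obtain ⟨t, ht, hid⟩ := h
  have hid' : ∀ (a : ι) (x y : A), t (fun S => if a ∈ S.1 then y else x) = x := hid
  let b : A → A → A := fun x y => t fun S => if i ∈ S.1 ∧ S.1 ∈ D' then y else x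
  let ψ : D → ι → A → A → A := fun S a x y => if a = i ∧ i ∈ S.1 then b x y else chi S.1 a x y
  have key : ∀ S : D, Gen Γ D' (ψ S) := by
    rintro ⟨S, hS⟩
    by_cases hi : i ∈ S
    · by_cases hs : S = {i}
      · subst hs
        refine Gen.app ht (c := fun T => chi (if T.1 ∈ D' then T.1 else T.1.erase i))
          (fun T => Gen.gen ?_) fun a x y => ?_
        · by_cases hT : T.1 ∈ D'
          · rwa [if_pos hT]
          · rw [if_neg hT]
            refine h1 _ T.2 ?_ fun e => hT (e ▸ h2)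
            by_contra hiT
            exact hT (h0 _ T.2 hiT)
        · by_cases ha : a = i
          · subst ha
            have e : ψ ⟨{a}, hS⟩ a x y = b x y := if_pos ⟨rfl, hi⟩
            rw [e]
            refine congrArg t (funext fun T => ?_)
            by_cases hT : T.1 ∈ D' <;> simp [chi, hT]
          · have e : ψ ⟨{i}, hS⟩ a x y = x := by simp [ψ, chi, ha]
            rw [e]
            refine Eq.trans (congrArg t (funext fun T => ?_)) (hid' a x y)
            by_cases hT : T.1 ∈ D' <;> simp [chi, hT, ha]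
      · refine Gen.app ht (c := fun T => chi (if i ∈ T.1 then
            (if T.1 ∈ D' then insert i Q else Q) else S.erase i))
          (fun T => Gen.gen ?_) fun a x y => ?_
        · by_cases hiT : i ∈ T.1
          · rw [if_pos hiT]
            by_cases hT : T.1 ∈ D'
            · rwa [if_pos hT]
            · rwa [if_neg hT]
          · rw [if_neg hiT]
            exact h1 S hS hi hs
        · by_cases ha : a = i
          · subst ha
            have e : ψ ⟨S, hS⟩ a x y = b x y := if_pos ⟨rfl, hi⟩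
            rw [e]
            refine congrArg t (funext fun T => ?_)
            by_cases hiT : a ∈ T.1 <;> by_cases hT : T.1 ∈ D' <;> simp [chi, hT, hiT, hQ]
          · have e : ψ ⟨S, hS⟩ a x y = chi S a x y := if_neg fun h => ha h.1
            rw [e]
            refine Eq.trans (congrArg t (funext fun T => ?_)) (hid' i (chi S a x y) (chi Q a x y))
            by_cases hiT : i ∈ T.1 <;> by_cases hT : T.1 ∈ D' <;> simp [chi, hT, hiT, ha]
    · have e : ψ ⟨S, hS⟩ = chi S := by
        funext a x y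
        exact if_neg fun h => hi h.2
      rw [e]
      exact Gen.gen (h0 S hS hi)
  refine Gen.app ht key fun a x y => ?_
  by_cases ha : a = i
  · subst ha
    refine Eq.trans (congrArg t (funext fun T => ?_)) (hid' a x (b x y))
    by_cases hT : a ∈ T.1 <;> simp [ψ, chi, hT]
  · refine Eq.trans (congrArg t (funext fun T => ?_)) (hid' a x y)
    simp [ψ, chi, ha]

/-- Nonempty subsets of `T` and singletons. -/
def Fam (T : Finset ι) : Set (Finset ι) := {S | (S.Nonempty ∧ S ⊆ T) ∨ ∃ a, S = {a}}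

lemma erase_nonempty {S : Finset ι} {i : ι} (hi : i ∈ S) (hs : S ≠ {i}) :
    (S.erase i).Nonempty := by
  by_contra h
  apply hs
  rw [Finset.not_nonempty_iff_eq_empty] at h
  rw [← Finset.insert_erase hi, h]
  rfl

lemma step {T : Finset ι} {a b m : ι} (hab : a ≠ b) (ha : a ∈ T) (hb : b ∈ T)
    (h : Cube Γ (Fam (insert m T))) : Cube Γ (Fam T) := by
  by_cases hm : m ∈ T
  · rwa [Finset.insert_eq_of_mem hm] at h
  have hma : m ≠ a := fun e => hm (e ▸ ha)
  have h' : Cube Γ (Fam T ∪ {{m, a}}) := by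
    refine remove m {a} ?_ ?_ (Or.inl (Or.inr ⟨m, rfl⟩)) (by simpa using hma)
      (Or.inl (Or.inr ⟨a, rfl⟩)) (Or.inr rfl) h
    · rintro S (⟨h1, h2⟩ | h1) hS
      · exact Or.inl (Or.inl ⟨h1, (Finset.subset_insert_iff_of_notMem hS).1 h2⟩)
      · exact Or.inl (Or.inr h1)
    · rintro S (⟨-, h2⟩ | ⟨c, rfl⟩) hS hs
      · exact Or.inl (Or.inl ⟨erase_nonempty hS hs, Finset.subset_insert_iff.1 h2⟩)
      · exact absurd (by rw [Finset.mem_singleton.1 hS]) hs
  refine remove a {b} ?_ ?_ (Or.inr ⟨a, rfl⟩) (by simpa using hab) (Or.inr ⟨b, rfl⟩)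
    (Or.inl ⟨by simp, ?_⟩) h'
  · rintro S (h1 | h1) hS
    · exact h1
    · rw [Set.mem_singleton_iff.1 h1] at hS
      exact absurd (by simp) hS
  · rintro S ((⟨-, h2⟩ | ⟨c, rfl⟩) | h1) hS hs
    · exact Or.inl ⟨erase_nonempty hS hs, (Finset.erase_subset _ _).trans h2⟩
    · exact absurd (by rw [Finset.mem_singleton.1 hS]) hs
    · rw [Set.mem_singleton_iff.1 h1]
      refine Or.inr ⟨m, ?_⟩
      ext c
      simp only [Finset.mem_erase, Finset.mem_insert, Finset.mem_singleton]
      constructor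
      · rintro ⟨h3, h4 | h4⟩
        · exact h4
        · exact absurd h4 h3
      · rintro rfl
        exact ⟨hma, Or.inl rfl⟩
  · intro c hc
    simp only [Finset.mem_insert, Finset.mem_singleton] at hc
    rcases hc with rfl | rfl
    · exact ha
    · exact hb

lemma descend {a b : ι} (hab : a ≠ b) (U : Finset ι) (h : Cube Γ (Fam (U ∪ {a, b}))) :
    Cube Γ (Fam {a, b}) := by
  induction U using Finset.induction_on with
  | empty => simpa using h
  | insert m U _ ih =>
    rw [Finset.insert_union] at h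
    exact ih (step hab (by simp) (by simp) h)

/-- The sets that index the arguments of an edge operation. -/
def sig (r : ℕ) : Fin 3 ⊕ Fin r → Finset (Bool ⊕ Fin r)
  | Sum.inl j => ![{Sum.inl false, Sum.inl true}, {Sum.inl false}, {Sum.inl true}] j
  | Sum.inr j => {Sum.inr j}

lemma sig_surj (r : ℕ) (S : Finset (Bool ⊕ Fin r))
    (hS : S ∈ Fam ({Sum.inl false, Sum.inl true} : Finset (Bool ⊕ Fin r))) :
    ∃ m, sig r m = S := by
  have hs : ∀ c : Bool ⊕ Fin r, ∃ m, sig r m = {c} := by
    rintro ((_ | _) | j)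
    · exact ⟨Sum.inl 1, rfl⟩
    · exact ⟨Sum.inl 2, rfl⟩
    · exact ⟨Sum.inr j, rfl⟩
  rcases hS with ⟨h1, h2⟩ | ⟨c, rfl⟩
  · by_cases h3 : (Sum.inl false : Bool ⊕ Fin r) ∈ S
    · by_cases h4 : (Sum.inl true : Bool ⊕ Fin r) ∈ S
      · refine ⟨Sum.inl 0, Finset.Subset.antisymm ?_ h2⟩
        intro c hc
        have hc' : c ∈ ({Sum.inl false, Sum.inl true} : Finset (Bool ⊕ Fin r)) := hc
        simp only [Finset.mem_insert, Finset.mem_singleton] at hc'
        rcases hc' with rfl | rfl
        · exact h3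
        · exact h4
      · have h5 : S ⊆ {Sum.inl false} := by
          rw [Finset.pair_comm] at h2
          exact (Finset.subset_insert_iff_of_notMem h4).1 h2
        rw [h1.subset_singleton_iff.1 h5]
        exact hs _
    · rw [h1.subset_singleton_iff.1 ((Finset.subset_insert_iff_of_notMem h3).1 h2)]
      exact hs _
  · exact hs c

lemma hasEdge_of_cube {r : ℕ}
    (h : Cube Γ (Fam ({Sum.inl false, Sum.inl true} : Finset (Bool ⊕ Fin r)))) : HasEdge Γ := by
  obtain ⟨t, ht, hid⟩ := h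
  choose κ hκ using fun S : Fam ({Sum.inl false, Sum.inl true} : Finset (Bool ⊕ Fin r)) =>
    sig_surj r S.1 S.2
  obtain ⟨s, hs, hid'⟩ : ∃ s : (Fin 3 ⊕ Fin r → A) → A, IsPol Γ s ∧
      ∀ i x y, s (fun m => chi (sig r m) i x y) = x := by
    refine ⟨fun z => t fun S => z (κ S), ht.comp fun S => isPol_proj (κ S), fun i x y => ?_⟩
    simp only [hκ]
    exact hid i x y
  refine ⟨⟨r, fun a b c h => s (Sum.elim ![a, b, c] h), fun x y => ?_, fun x y => ?_,
    fun x y j => ?_⟩, ?_⟩
  · refine Eq.trans (congrArg s (funext fun m => ?_)) (hid' (Sum.inl false) x y)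
    rcases m with m | m
    · fin_cases m <;> simp [chi, sig]
    · simp [chi, sig]
  · refine Eq.trans (congrArg s (funext fun m => ?_)) (hid' (Sum.inl true) x y)
    rcases m with m | m
    · fin_cases m <;> simp [chi, sig]
    · simp [chi, sig]
  · refine Eq.trans (congrArg s (funext fun m => ?_)) (hid' (Sum.inr j) x y)
    rcases m with m | m
    · fin_cases m <;> simp [chi, sig]
    · by_cases hm : m = j
      · subst hm
        simp [chi, sig]
      · simp [chi, sig, hm, Ne.symm hm]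
  · have e : (fun z : Fin 3 ⊕ Fin r → A => s (Sum.elim
        ![z (Sum.inl 0), z (Sum.inl 1), z (Sum.inl 2)] fun j => z (Sum.inr j))) = s := by
      funext z
      refine congrArg s (funext fun m => ?_)
      rcases m with m | m
      · fin_cases m <;> rfl
      · rfl
    exact (congrArg (IsPol Γ) e).mpr hs

lemma eval_le (q : Polynomial ℕ) :
    ∃ C : ℕ, ∀ m : ℕ, q.eval m ≤ C * (m + 1) ^ q.natDegree := by
  refine ⟨∑ i ∈ Finset.range (q.natDegree + 1), q.coeff i, fun m => ?_⟩
  rw [Polynomial.eval_eq_sum_range, Finset.sum_mul]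
  refine Finset.sum_le_sum fun i hi => Nat.mul_le_mul_left _ ?_
  calc m ^ i ≤ (m + 1) ^ i := Nat.pow_le_pow_left (Nat.le_succ m) i
    _ ≤ (m + 1) ^ q.natDegree :=
      Nat.pow_le_pow_right (Nat.succ_pos m) (Nat.lt_succ_iff.1 (Finset.mem_range.1 hi))

lemma growth (q : Polynomial ℕ) (c : ℕ) : ∃ n : ℕ, q.eval (c * n) < n ^ (q.natDegree + 2) := by
  obtain ⟨C, hC⟩ := eval_le q
  set d := q.natDegree
  refine ⟨C * (c + 1) ^ d + 1, ?_⟩
  set n := C * (c + 1) ^ d + 1 with hn
  have hn1 : 1 ≤ n := Nat.succ_le_succ (Nat.zero_le _)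
  have h1 : c * n + 1 ≤ (c + 1) * n := by nlinarith
  calc q.eval (c * n) ≤ C * (c * n + 1) ^ d := hC _
    _ ≤ C * ((c + 1) * n) ^ d := Nat.mul_le_mul_left _ (Nat.pow_le_pow_left h1 d)
    _ = (C * (c + 1) ^ d) * n ^ d := by rw [mul_pow, mul_assoc]
    _ < n * n ^ d := Nat.mul_lt_mul_of_pos_right (by omega) (Nat.pow_pos hn1)
    _ = n ^ (d + 1) := by ring
    _ ≤ n ^ (d + 2) := Nat.pow_le_pow_right hn1 (by omega)

lemma many [Finite A] [Fintype ι] (h : ¬ Cube Γ (Fam (Finset.univ : Finset ι))) (n : ℕ) :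
    2 ^ n ^ Fintype.card ι ≤ Nat.card {R : Set (Fin (Fintype.card ι * Nat.card (A × A) * n) → A) //
      PPDefinable Γ R} := by
  classical
  have hA : Fintype A := Fintype.ofFinite A
  let e : Fin (Fintype.card ι * Nat.card (A × A) * n) ≃ (ι × (A × A)) × Fin n :=
    (Fintype.equivFinOfCardEq (by simp [Nat.card_eq_fintype_card])).symm
  let c : (ι → Fin n) → (ι × (A × A)) × Fin n → A := fun φ u =>
    if u.2 = φ u.1.1 then u.1.2.1 else u.1.2.2
  let R : Set (ι → Fin n) → {R : Set (Fin (Fintype.card ι * Nat.card (A × A) * n) → A) //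
      PPDefinable Γ R} := fun F =>
    ⟨_, term_definable (Γ := Γ) (M := F) fun u ψ => c ψ.1 (e u)⟩
  have key : ∀ F φ, (fun u => c φ (e u)) ∈ (R F).1 ↔ φ ∈ F := by
    intro F φ
    refine ⟨fun ⟨t, ht, hc⟩ => ?_, fun hφ => ⟨fun z => z ⟨φ, hφ⟩, isPol_proj _, fun _ => rfl⟩⟩
    by_contra hφ
    have hne : ∀ ψ : F, (Finset.univ.filter fun i => φ i ≠ ψ.1 i) ∈
        Fam (Finset.univ : Finset ι) := fun ψ => by
      refine Or.inl ⟨?_, Finset.subset_univ _⟩
      by_contra h1
      apply hφ
      have h2 : φ = ψ.1 := by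
        funext i
        by_contra h3
        exact h1 ⟨i, Finset.mem_filter.2 ⟨Finset.mem_univ _, h3⟩⟩
      rw [h2]
      exact ψ.2
    refine h ⟨fun z => t fun ψ => z ⟨_, hne ψ⟩, ht.comp fun ψ => isPol_proj _, fun i x y => ?_⟩
    have h1 := hc (e.symm ((i, (x, y)), φ i))
    simp only [Equiv.apply_symm_apply, c, if_true] at h1
    refine Eq.trans (congrArg t (funext fun ψ => ?_)) h1.symm
    by_cases h2 : φ i = ψ.1 i <;> simp [chi, h2]
  have inj : Function.Injective R := fun F G hFG => by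
    ext φ
    rw [← key F φ, ← key G φ, hFG]
  have h1 := Nat.card_le_card_of_injective R inj
  rwa [Nat.card_eq_fintype_card, Fintype.card_set, Fintype.card_fun, Fintype.card_fin] at h1

end EdgePf

open EdgePf in
theorem edge : EdgeStmt := by
  rintro A _ Γ ⟨q, hq⟩
  refine hasEdge_of_cube (r := q.natDegree) (descend (by simp) Finset.univ ?_)
  rw [Finset.union_eq_left.2 (Finset.subset_univ _)]
  by_contra h
  obtain ⟨n, hn⟩ := growth q (Fintype.card (Bool ⊕ Fin q.natDegree) * Nat.card (A × A))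
  have h1 := (many h n).trans (hq _)
  rw [Nat.pow_le_pow_iff_right (by norm_num)] at h1
  have h2 : Fintype.card (Bool ⊕ Fin q.natDegree) = q.natDegree + 2 := by simp [add_comm]
  rw [← h2] at hn
  omega

end Pool.Agent.MP_6fd87c_lc.H78
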