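import Pool.Agent.MP_6fd87c_lc.H78.Spec

/-! Few subpowers pass to pp-interpretations. -/

namespace Pool.Agent.MP_6fd87c_lc.H78

open Pool.Agent.MP_6fd87c_lc.H6

namespace InterpAux

variable {A B : Type} {d : ℕ} {D : Set (Fin d → A)} (h : D → B)

/-- The preimage of a relation under the interpretation map. -/
def pre {V : Type} (R : Set (V → B)) : Set (V × Fin d → A) :=
  {w | ∃ u : V → D, (∀ j l, w (j, l) = (u j).1 l) ∧ (fun j => h (u j)) ∈ R}

lemma mem_pre {V : Type} {R : Set (V → B)} {w : V × Fin d → A} :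
    w ∈ pre h R ↔ ∃ hw : ∀ v, (fun l => w (v, l)) ∈ D, (fun v => h ⟨_, hw v⟩) ∈ R := by
  constructor
  · rintro ⟨u, hu, hR⟩
    have e : ∀ v, (fun l => w (v, l)) = (u v).1 := fun v => funext (hu v)
    refine ⟨fun v => e v ▸ (u v).2, ?_⟩
    convert hR using 3
    exact Subtype.ext (e _)
  · rintro ⟨hw, hR⟩
    exact ⟨fun v => ⟨_, hw v⟩, fun _ _ => rfl, hR⟩

lemma pre_inter {V : Type} (R S : Set (V → B)) : pre h (R ∩ S) = pre h R ∩ pre h S := by
  ext w
  simp only [mem_pre, Set.mem_inter_iff]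
  exact ⟨fun ⟨hw, h1, h2⟩ => ⟨⟨hw, h1⟩, hw, h2⟩, fun ⟨⟨hw, h1⟩, _, h2⟩ => ⟨hw, h1, h2⟩⟩

lemma pre_comap {V V' : Type} (σ : V → V') (R : Set (V → B)) :
    pre h {x : V' → B | (fun v => x (σ v)) ∈ R} =
      pre h Set.univ ∩ {w | (fun p : V × Fin d => w (σ p.1, p.2)) ∈ pre h R} := by
  ext w
  simp only [mem_pre, Set.mem_inter_iff, Set.mem_ofPred_eq, Set.mem_univ]
  exact ⟨fun ⟨hw, h1⟩ => ⟨⟨hw, trivial⟩, fun v => hw (σ v), h1⟩,
    fun ⟨⟨hw, _⟩, _, h2⟩ => ⟨hw, h2⟩⟩

lemma pre_injective (hh : Function.Surjective h) {V : Type} :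
    Function.Injective (pre h (V := V)) := by
  have key : ∀ R S : Set (V → B), pre h R = pre h S → R ⊆ S := by
    intro R S e x hx
    choose u hu using fun v => hh (x v)
    have h1 : (fun p : V × Fin d => (u p.1).1 p.2) ∈ pre h R :=
      ⟨u, fun _ _ => rfl, by simpa only [hu] using hx⟩
    rw [e, mem_pre] at h1
    obtain ⟨_, h2⟩ := h1
    simpa only [hu] using h2
  exact fun R S e => (key R S e).antisymm (key S R e.symm)

lemma pre_proj (hh : Function.Surjective h) {V W : Type} (S : Set (V ⊕ W → B)) :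
    pre h {x : V → B | ∃ y : W → B, Sum.elim x y ∈ S} =
      {w | ∃ y : W × Fin d → A, Sum.elim w y ∈ {z : V × Fin d ⊕ W × Fin d → A |
        (fun p => z (Equiv.sumProdDistrib V W (Fin d) p)) ∈ pre h S}} := by
  ext w
  constructor
  · rintro ⟨u, hu, y, hy⟩
    choose u' hu' using fun v => hh (y v)
    refine ⟨fun p => (u' p.1).1 p.2, Sum.elim u u', ?_, ?_⟩
    · rintro (v | v) l
      · simpa using hu v l
      · simp
    · convert hy using 1
      funext v
      rcases v with v | v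
      · simp
      · simp [hu']
  · rintro ⟨y, u, hu, hS⟩
    refine ⟨fun v => u (Sum.inl v), fun v l => by simpa using hu (Sum.inl v) l,
      fun v => h (u (Sum.inr v)), ?_⟩
    convert hS using 1
    funext v
    rcases v with v | v <;> simp

variable {Γ : Lang A} {Δ : Lang B}

lemma def_pre_univ (hD : PPDefinable Γ D) (V : Type) [Fintype V] :
    PPDefinable Γ (pre h (Set.univ : Set (V → B))) := by
  obtain ⟨L, hL⟩ := hD
  refine ⟨Fintype.card V * L, ?_⟩
  convert def_iInter (fun v : V => {w : V × Fin d → A | (fun l => w (v, l)) ∈ D}) L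
    fun v => hL.comap fun l => (v, l) using 1
  ext w
  simp [mem_pre]

lemma def_pre_comap (hD : PPDefinable Γ D) {V V' : Type} [Fintype V'] (σ : V → V')
    {R : Set (V → B)} (hR : PPDefinable Γ (pre h R)) :
    PPDefinable Γ (pre h {x : V' → B | (fun v => x (σ v)) ∈ R}) := by
  obtain ⟨L, hL⟩ := def_pre_univ h hD V'
  obtain ⟨L', hL'⟩ := hR
  rw [pre_comap]
  exact ⟨_, hL.inter (hL'.comap fun p : V × Fin d => (σ p.1, p.2))⟩

lemma def_pre (hh : Function.Surjective h) (hD : PPDefinable Γ D)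
    (hK : PPDefinable Γ (pre h {x : Fin 2 → B | x 0 = x 1}))
    (hR : ∀ i, PPDefinable Γ (pre h (Δ.rel i))) {V : Type} [Fintype V] {R : Set (V → B)}
    (H : PPDefinable Δ R) : PPDefinable Γ (pre h R) := by
  obtain ⟨_, k, φ, -, h2⟩ := H
  have hatom : ∀ a : Atom Δ (V ⊕ Fin k), PPDefinable Γ (pre h {x | a.Holds x}) := by
    intro a
    cases a with
    | rel i z => exact def_pre_comap h hD z (hR i)
    | eq u v => exact def_pre_comap h hD ![u, v] hK
  have hlist : ∀ ψ : List (Atom Δ (V ⊕ Fin k)),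
      PPDefinable Γ (pre h {x | ∀ a ∈ ψ, a.Holds x}) := by
    intro ψ
    induction ψ with
    | nil => simpa using def_pre_univ h hD (V ⊕ Fin k)
    | cons a ψ ih =>
      obtain ⟨L, hL⟩ := hatom a
      obtain ⟨L', hL'⟩ := ih
      refine ⟨L + L', ?_⟩
      convert hL.inter hL' using 1
      rw [← pre_inter]
      congr 1
      ext x
      simp
  obtain ⟨L, hL⟩ := hlist φ
  have e : R = {x : V → B | ∃ y : Fin k → B,
      Sum.elim x y ∈ {z : V ⊕ Fin k → B | ∀ a ∈ φ, a.Holds z}} := Set.ext h2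
  rw [e, pre_proj h hh]
  exact ⟨_, (hL.comap (Equiv.sumProdDistrib V (Fin k) (Fin d))).proj⟩

end InterpAux

open InterpAux Polynomial in
theorem interp : InterpStmt := by
  rintro A B _ _ Γ Δ ⟨d, D, h, -, hh, hD, hK, hR⟩ ⟨q, hq⟩
  refine ⟨q.comp (X * C d), fun n => ?_⟩
  let F : {R : Set (Fin n → B) // PPDefinable Δ R} →
      {R : Set (Fin (n * d) → A) // PPDefinable Γ R} := fun R =>
    ⟨{x | (fun p => x (finProdFinEquiv p)) ∈ pre h R.1}, by
      obtain ⟨L, hL⟩ := def_pre h hh hD hK hR R.2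
      exact ⟨L, hL.comap finProdFinEquiv⟩⟩
  have hF : Function.Injective F := by
    intro R S e
    refine Subtype.ext (pre_injective h hh (Set.ext fun w => ?_))
    have := Set.ext_iff.1 (congrArg Subtype.val e) fun i => w (finProdFinEquiv.symm i)
    simpa only [F, Set.mem_ofPred_eq, Equiv.symm_apply_apply] using this
  refine (Nat.card_le_card_of_injective F hF).trans ?_
  simpa using hq (n * d)

end Pool.Agent.MP_6fd87c_lc.H78
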