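import Pool.Agent.MP_6fd87c_lc.H78.Spec

/-! An edge polymorphism gives short pp-definitions. -/

namespace Pool.Agent.MP_6fd87c_lc.H78

open Pool.Agent.MP_6fd87c_lc.H6

namespace ShortP

variable {A : Type} {Γ : Lang A} {E : Edge A}

/-- The edge operation is a polymorphism. -/
def EP (Γ : Lang A) (E : Edge A) : Prop :=
  IsPol Γ fun z : Fin 3 ⊕ Fin E.r → A =>
    E.e (z (Sum.inl 0)) (z (Sum.inl 1)) (z (Sum.inl 2)) fun j => z (Sum.inr j)

lemma cover {M : Type} (o : M) {k : ℕ} (T : Finset M) (hT : T.card ≤ k) :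
    ∃ s : Fin k → M, ∀ l ∈ T, ∃ j, s j = l := by
  refine ⟨fun i => if h : i.val < T.card then (T.equivFin.symm ⟨i, h⟩ : M) else o, fun l hl =>
    ⟨⟨(T.equivFin ⟨l, hl⟩).val, (T.equivFin ⟨l, hl⟩).2.trans_le hT⟩, ?_⟩⟩
  simp

lemma pol_ev {m t : ℕ} {τ : Fin m → Fin t ⊕ A} (h : ∀ i a, τ i = Sum.inr a → a ∈ (∅ : Set A))
    {g : Fn A m} (hg : IsPol Γ g) : IsPol Γ fun z => g (ev τ z) := by
  refine hg.comp (g := fun l z => Sum.elim z id (τ l)) fun l => ?_
  rcases e : τ l with j | a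
  · exact isPol_proj j
  · exact (h l a e).elim

lemma card_ev [Fintype A] [DecidableEq A] {O : Set A} {m t : ℕ} {ρ : Fin m → Fin m ⊕ A}
    (h : Adm O t ρ) : (Finset.univ.image (ev ρ)).card ≤ (Fintype.card A + 1) ^ t := by
  obtain ⟨-, J, h1, h2⟩ := h
  have key : ∀ w ∈ Finset.univ.image (ev ρ), ∃ z, ev ρ z = w := fun w hw => by simpa using hw
  choose! z hz using fun w (hw : w ∈ Finset.univ.image (ev ρ)) =>
    (key w hw).imp fun z (e : ev ρ z = w) => e
  have := Finset.card_le_card_of_injOn (s := Finset.univ.image (ev ρ)) (t := Finset.univ)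
    (fun w (j : J) => z w j) (fun _ _ => Finset.mem_univ _) fun w hw w' hw' e => by
      rw [← hz w hw, ← hz w' hw']
      funext i
      unfold ev
      rcases k : ρ i with j | a
      · exact congrFun e ⟨j, h2 i j k⟩
      · rfl
  rw [Finset.card_univ, Fintype.card_fun, Fintype.card_coe] at this
  exact this.trans ((Nat.pow_le_pow_left (Nat.le_succ _) _).trans
    (Nat.pow_le_pow_right (Nat.succ_pos _) h1))

lemma closedR (hE : EP Γ E) {V : Type} {R : Set (V → A)} (hR : PPDefinable Γ R) : E.Closed R :=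
  fun a b c h ha hb hc hh => hR.inv hE (Sum.elim ![a, b, c] h) (by
    rintro (l | l)
    · fin_cases l
      exacts [ha, hb, hc]
    · exact hh l)

variable [Finite A]

lemma pol_p (hE : EP Γ E) {m : ℕ} {a b c : Fn A m} (ha : IsPol Γ a) (hb : IsPol Γ b)
    (hc : IsPol Γ c) : IsPol Γ fun z => E.p (a z) (b z) (c z) :=
  (closedR hE (pol_definable (Γ := Γ) (Fin m))).p ha hb hc

/-- The state of all pairs of polymorphisms. -/
def top (hE : EP Γ E) : State E where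
  O := ∅
  T _ g g' := IsPol Γ g ∧ IsPol Γ g'
  symm h := h.symm
  trans h h' := ⟨h.1, h'.2⟩
  closed m a a' b b' c c' h h' ha hb hc hh :=
    ⟨closedR hE (pol_definable (Fin m)) a b c h ha.1 hb.1 hc.1 fun j => (hh j).1,
      closedR hE (pol_definable (Fin m)) a' b' c' h' ha.2 hb.2 hc.2 fun j => (hh j).2⟩
  subst _ h _ _ k := ⟨pol_ev h k.1, pol_ev h k.2⟩

/-- Global matching. -/
lemma glob (hE : EP Γ E) {m n : ℕ} (o : Fin m) (x : Fin n → Fin m → A)
    {W : Finset (Fin m → Fin m ⊕ A)} (hW : ∀ ρ ∈ W, ∀ i a, ρ i = Sum.inr a → a ∈ (∅ : Set A))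
    (hM : ∀ g f : Fn A m, IsPol Γ g → (∀ ρ ∈ W, IsPol Γ fun z => f (ev ρ z)) →
      ∃ g', IsPol Γ g' ∧ ∀ i, g' (x i) = E.d (g (x i)) (f (x i)))
    (G : Fn A m) (h1 : ∀ ρ ∈ W, IsPol Γ fun z => G (ev ρ z))
    (h2 : ∀ s : Fin (E.r + 1) → Fin n, ∃ f, IsPol Γ f ∧ ∀ j, G (x (s j)) = f (x (s j))) :
    ∃ f, IsPol Γ f ∧ ∀ i, G (x i) = f (x i) := by
  classical
  have hK := closedR hE (term_definable (Γ := Γ) x)
  have main : ∀ P : Finset (Fin n), ∃ h ∈ {g : Fin n → A | ∃ f, IsPol Γ f ∧ ∀ u, g u = f (x u)},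
      ∀ i ∈ P, h i = G (x i) := by
    intro P
    induction P using Finset.induction_on with
    | empty => exact ⟨_, ⟨_, isPol_proj o, fun _ => rfl⟩, by simp⟩
    | insert a P _ ih =>
      obtain ⟨g, ⟨g0, hg0, eg⟩, hg⟩ := ih
      obtain ⟨h0, hh0, eh⟩ := h2 fun _ => a
      have eh := eh 0
      obtain ⟨v0, hv0, ev0⟩ := hM h0 (fun z => E.p (h0 z) (G z) (E.d (G z) (g0 z))) hh0
        fun ρ hρ => pol_p hE (pol_ev (hW ρ hρ) hh0) (h1 ρ hρ)
          (pol_p hE (h1 ρ hρ) (h1 ρ hρ) (pol_ev (hW ρ hρ) hg0))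
      obtain ⟨h, hh, k1, k2⟩ := Edge.ext hK (fun i => G (x i)) P a (fun I _ hI => by
          obtain ⟨s, hs⟩ := cover a (insert a I)
            ((Finset.card_insert_le _ _).trans (Nat.succ_le_succ hI))
          obtain ⟨f, hf, k⟩ := h2 s
          have k' : ∀ i ∈ insert a I, f (x i) = G (x i) := fun i hi => by
            obtain ⟨j, rfl⟩ := hs i hi
            exact (k j).symm
          exact ⟨_, ⟨f, hf, fun _ => rfl⟩, k' a (Finset.mem_insert_self _ _),
            fun i hi => k' i (Finset.mem_insert_of_mem hi)⟩)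
        ⟨g0, hg0, eg⟩ hg (u := fun i => h0 (x i)) (v := fun i => v0 (x i))
        (fun h hh => hK.p hh ⟨h0, hh0, fun _ => rfl⟩ ⟨v0, hv0, fun _ => rfl⟩)
        (fun i hi => by simp [ev0, ← eg, hg i hi]) eh.symm (by simp [ev0, ← eg, ← eh])
      exact ⟨h, hh, fun i hi => (Finset.mem_insert.1 hi).elim (fun e => e ▸ k1) (k2 i)⟩
  obtain ⟨h, ⟨f, hf, e⟩, k⟩ := main Finset.univ
  exact ⟨f, hf, fun i => (k i (Finset.mem_univ i)).symm.trans (e i)⟩

/-- Compact representations. -/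
lemma gens [Fintype A] (hE : EP Γ E) {n : ℕ} {R : Set (Fin n → A)} (hR : PPDefinable Γ R)
    (hne : R.Nonempty) : ∃ x : Fin n → Fin ((n * Fintype.card A) ^ (E.r + 1) +
      n * Fintype.card A ^ 2 * 2 + 1) → A, R = {g | ∃ f, IsPol Γ f ∧ ∀ i, g i = f (x i)} := by
  classical
  obtain ⟨r₀, hr₀⟩ := hne
  have h0 : ∀ p : Fin (E.r + 1) → Fin n × A, ∃ u ∈ R,
      (∃ v ∈ R, ∀ j, v (p j).1 = (p j).2) → ∀ j, u (p j).1 = (p j).2 := by
    intro p
    by_cases h : ∃ v ∈ R, ∀ j, v (p j).1 = (p j).2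
    · obtain ⟨v, hv, h⟩ := h
      exact ⟨v, hv, fun _ => h⟩
    · exact ⟨r₀, hr₀, fun h' => absurd h' h⟩
  have h1 : ∀ p : Fin n × A × A, ∃ u : Bool → Fin n → A, (∀ c, u c ∈ R) ∧
      ((∃ v ∈ R, ∃ w ∈ R, (∀ i < p.1, v i = w i) ∧ v p.1 = p.2.1 ∧ w p.1 = p.2.2) →
        (∀ i < p.1, u false i = u true i) ∧ u false p.1 = p.2.1 ∧ u true p.1 = p.2.2) := by
    intro p
    by_cases h : ∃ v ∈ R, ∃ w ∈ R, (∀ i < p.1, v i = w i) ∧ v p.1 = p.2.1 ∧ w p.1 = p.2.2
    · obtain ⟨v, hv, w, hw, h⟩ := h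
      exact ⟨fun c => if c then w else v, fun c => by cases c <;> simpa, fun _ => by simpa using h⟩
    · exact ⟨fun _ => r₀, fun _ => hr₀, fun h' => absurd h' h⟩
  choose w hw hw' using h0
  choose u hu hu' using h1
  let e : Option ((Fin (E.r + 1) → Fin n × A) ⊕ (Fin n × A × A) × Bool) ≃
      Fin ((n * Fintype.card A) ^ (E.r + 1) + n * Fintype.card A ^ 2 * 2 + 1) :=
    Fintype.equivFinOfCardEq (by simp [pow_two])
  let gen : Option ((Fin (E.r + 1) → Fin n × A) ⊕ (Fin n × A × A) × Bool) → Fin n → A :=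
    fun o => o.elim r₀ (Sum.elim w fun p => u p.1 p.2)
  have hgen : ∀ o, gen o ∈ R := by
    rintro (_ | p | p)
    exacts [hr₀, hw _, hu _ _]
  refine ⟨fun i l => gen (e.symm l) i, ?_⟩
  have hK := closedR hE (term_definable (Γ := Γ) fun i l => gen (e.symm l) i)
  generalize hKd : {g : Fin n → A | ∃ f, IsPol Γ f ∧ ∀ i, g i = f fun l => gen (e.symm l) i} = K
    at hK
  have hKR : K ⊆ R := by
    rw [← hKd]
    rintro g ⟨f, hf, hg⟩
    have := hR.inv hf (fun l => gen (e.symm l)) fun l => hgen _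
    rwa [← funext hg] at this
  have hgK : ∀ o, gen o ∈ K := fun o =>
    hKd ▸ ⟨_, isPol_proj (e o), fun i => by simp only [Equiv.symm_apply_apply]⟩
  refine Set.Subset.antisymm (fun φ hφ => ?_) hKR
  have main : ∀ k ≤ n, ∃ h ∈ K, ∀ i : Fin n, i.val < k → h i = φ i := by
    intro k hk
    induction k with
    | zero => exact ⟨_, hgK none, by simp⟩
    | succ k ih =>
      obtain ⟨g, hg, h2⟩ := ih (Nat.le_of_succ_le hk)
      obtain ⟨k1, k2, k3⟩ := hu' (⟨k, hk⟩, φ ⟨k, hk⟩, E.d (φ ⟨k, hk⟩) (g ⟨k, hk⟩))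
        ⟨φ, hφ, _, (closedR hE hR).d hφ (hKR hg), fun i hi => by rw [h2 i hi, E.d_self], rfl, rfl⟩
      obtain ⟨h, hh, c1, c2⟩ := Edge.ext hK φ (Finset.univ.filter fun i => i.val < k) ⟨k, hk⟩
        (fun I _ hI => by
          obtain ⟨s, hs⟩ := cover ⟨k, hk⟩ (insert ⟨k, hk⟩ I)
            ((Finset.card_insert_le _ _).trans (Nat.succ_le_succ hI))
          have c := hw' (fun j => (s j, φ (s j))) ⟨φ, hφ, fun _ => rfl⟩
          have c' : ∀ i ∈ insert ⟨k, hk⟩ I, w (fun j => (s j, φ (s j))) i = φ i := fun i hi => by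
            obtain ⟨j, rfl⟩ := hs i hi
            exact c j
          exact ⟨_, hgK (some (Sum.inl _)), c' _ (Finset.mem_insert_self _ _),
            fun i hi => c' i (Finset.mem_insert_of_mem hi)⟩)
        hg (fun i hi => h2 i (Finset.mem_filter.1 hi).2)
        (fun h hh => hK.p hh (hgK (some (Sum.inr (_, false)))) (hgK (some (Sum.inr (_, true)))))
        (fun i hi => k1 i (Finset.mem_filter.1 hi).2) k2 k3
      refine ⟨h, hh, fun i hi => ?_⟩
      rcases Nat.lt_succ_iff_lt_or_eq.1 hi with hi | hi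
      · exact c2 i (Finset.mem_filter.2 ⟨Finset.mem_univ _, hi⟩)
      · obtain rfl : i = ⟨k, hk⟩ := Fin.ext hi
        exact c1
  obtain ⟨h, hh, h2⟩ := main n le_rfl
  rwa [← show h = φ from funext fun i => h2 i i.2]

end ShortP

open ShortP Polynomial in
theorem short (core : CoreStmt) : ShortStmt := by
  classical
  rintro A _ Γ ⟨E, hE⟩
  have : Fintype A := Fintype.ofFinite A
  obtain ⟨t, c, hM⟩ := core A E (top hE)
  obtain ⟨L, hL⟩ := uniform_bound' (Γ := Γ) ((Fintype.card A + 1) ^ t + (E.r + 1))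
  obtain ⟨L₀, hL₀⟩ := empty_bound (Γ := Γ)
  refine ⟨C L₀ + 2 * X + ((X + ((X * C (Fintype.card A)) ^ (E.r + 1) +
    X * C (Fintype.card A) ^ 2 * 2 + 1) + 2) ^ c + X ^ (E.r + 1)) *
    C ((Fintype.card A + 1) ^ t + (E.r + 1) + L), fun n R hR => ?_⟩
  simp only [eval_add, eval_mul, eval_pow, eval_C, eval_X, eval_one, eval_ofNat]
  rcases R.eq_empty_or_nonempty with rfl | hne
  · exact (hL₀ n hR).mono (by omega)
  obtain ⟨x, rfl⟩ := gens hE hR hne
  obtain ⟨W, w1, w2, w3⟩ := hM _ (Finset.univ.image x)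
  have := assemble hL 0 x (J := W ⊕ (Fin (E.r + 1) → Fin n))
    (Sum.elim (fun ρ => Finset.univ.image (ev ρ.1)) fun s => Finset.univ.image fun j => x (s j))
    (by
      rintro (ρ | s)
      · exact (card_ev (w1 ρ.1 ρ.2)).trans (Nat.le_add_right _ _)
      · exact (Finset.card_image_le.trans (by simp)).trans (Nat.le_add_left _ _))
    fun G hG => glob hE 0 x (fun ρ hρ => (w1 ρ hρ).1)
      (fun g f hg hf => (w3 g f ⟨hg, hg⟩ fun ρ hρ => ⟨pol_ev (w1 ρ hρ).1 hg, hf ρ hρ⟩).imp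
        fun g' k => ⟨k.1.2, fun i => k.2 _ (Finset.mem_image_of_mem _ (Finset.mem_univ i))⟩) G
      (fun ρ hρ => by
        obtain ⟨f, hf, k⟩ := hG (Sum.inl ⟨ρ, hρ⟩)
        rw [show (fun z => G (ev ρ z)) = fun z => f (ev ρ z) from
          funext fun z => k _ (Finset.mem_image_of_mem _ (Finset.mem_univ z))]
        exact pol_ev (w1 ρ hρ).1 hf)
      fun s => (hG (Sum.inr s)).imp fun f k =>
        ⟨k.1, fun j => k.2 _ (Finset.mem_image_of_mem _ (Finset.mem_univ j))⟩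
  refine this.mono ?_
  have h1 : (Finset.univ.image x).card ≤ n := Finset.card_image_le.trans (by simp)
  have h2 := w2.trans (Nat.pow_le_pow_left (Nat.add_le_add_right (Nat.add_le_add_right h1 _) 2) c)
  simp only [Fintype.card_sum, Fintype.card_coe, Fintype.card_fun, Fintype.card_fin]
  exact Nat.add_le_add (Nat.le_add_left _ _)
    (Nat.mul_le_mul_right _ (Nat.add_le_add_right h2 _))

end Pool.Agent.MP_6fd87c_lc.H78
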