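import Pool.Agent.MP_6fd87c_lc.H78.Spec

/-! The order of states is well founded. -/

namespace Pool.Agent.MP_6fd87c_lc.H78

namespace Wf

variable {A : Type}

lemma subst {E : Edge A} (s : State E) {m t : ℕ} (σ : Fin m → Fin t) {g g' : Fn A m}
    (h : s.T m g g') : s.T t (fun z => g (z ∘ σ)) fun z => g' (z ∘ σ) :=
  s.subst (fun i => Sum.inl (σ i)) (fun _ _ h => by cases h) h

/-- Higman's lemma with a finite label. -/
lemma higman {β γ : Type} [Finite β] [Finite γ] (f : ℕ → γ × List β) :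
    ∃ i j, i < j ∧ (f i).1 = (f j).1 ∧ (f i).2.Sublist (f j).2 := by
  have h1 : WellQuasiOrdered (List.SublistForall₂ (Eq : β → β → Prop)) := fun f =>
    Set.partiallyWellOrderedOn_iff_exists_lt.1
      ((Set.partiallyWellOrderedOn_of_wellQuasiOrdered (Finite.wellQuasiOrdered Eq)
        Set.univ).partiallyWellOrderedOn_sublistForall₂ Eq) f fun _ _ _ => Set.mem_univ _
  obtain ⟨i, j, a, b, c⟩ := (Finite.wellQuasiOrdered (Eq : γ → γ → Prop)).prod h1 f
  obtain ⟨l, d, e⟩ := List.sublistForall₂_iff.1 c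
  rw [List.forall₂_eq_eq_eq] at d
  exact ⟨i, j, a, b, d ▸ e⟩

lemma emb_of_sublist {β : Type} {m m' : ℕ} {F : Fin m → β} {F' : Fin m' → β}
    (h : (List.ofFn F).Sublist (List.ofFn F')) :
    ∃ h : Fin m → Fin m', StrictMono h ∧ ∀ i, F i = F' (h i) := by
  obtain ⟨f, hf⟩ := List.sublist_iff_exists_fin_orderEmbedding_get_eq.1 h
  refine ⟨fun i => (f (i.cast List.length_ofFn.symm)).cast List.length_ofFn, fun i j e => ?_,
    fun i => ?_⟩
  · exact f.strictMono (a := i.cast List.length_ofFn.symm) (b := j.cast List.length_ofFn.symm) e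
  · have := hf (i.cast List.length_ofFn.symm)
    rwa [List.get_ofFn, List.get_ofFn] at this

variable [LinearOrder A]

/-- A word with the first occurrences of the letters marked. -/
def mark {m : ℕ} (x : Fin m → A) : List (A × Prop) :=
  List.ofFn fun i => (x i, ∀ j < i, x j ≠ x i)

lemma exists_sigma {m m' : ℕ} {x : Fin m → A} {x' : Fin m' → A} (h : (mark x).Sublist (mark x'))
    (hr : Set.range x = Set.range x') : ∃ σ : Fin m' → Fin m, x ∘ σ = x' ∧
      ∀ y, toLex y < toLex x → toLex (y ∘ σ) < toLex x' := by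
  classical
  obtain ⟨h, h1, h2⟩ := emb_of_sublist h
  simp only [Prod.mk.injEq] at h2
  have key : ∀ j, ∃ i, x i = x' j ∧ h i ≤ j ∧ ∀ i', h i' = j → i = i' := fun j => by
    by_cases e : ∃ i, h i = j
    · obtain ⟨i, rfl⟩ := e
      exact ⟨i, (h2 i).1, le_rfl, fun i' e => h1.injective e.symm⟩
    · obtain ⟨i, a, b⟩ := WellFounded.has_min wellFounded_lt {i | x i = x' j}
        (hr ▸ Set.mem_range_self j : x' j ∈ Set.range x)
      have : ∀ j < i, x j ≠ x i := fun k hk c => b k (c.trans a) hk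
      rw [(h2 i).2] at this
      exact ⟨i, a, not_lt.1 fun c => this j c (a.symm.trans (h2 i).1),
        fun i' c => (e ⟨i', c⟩).elim⟩
  choose σ a b c using key
  refine ⟨σ, funext a, ?_⟩
  rintro y ⟨i, d, e⟩
  refine ⟨h i, fun j hj => (d (σ j) (h1.lt_iff_lt.1 ((b j).trans_lt hj))).trans (a j), ?_⟩
  change y (σ (h i)) < x' (h i)
  rw [c _ i rfl, ← (h2 i).1]
  exact e

variable (E : Edge A)

/-- The data that a state can lose. -/
abbrev Dat := ((Σ m, Fin m → A) × A × A) ⊕
  (Fn A (Nat.card (Fin (E.r + 1) → A)) × Fn A (Nat.card (Fin (E.r + 1) → A)))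

variable {E}

/-- A datum holds in a state. -/
def Holds (s : State E) : Dat E → Prop
  | .inl (x, a, c) => ∃ u v, s.T x.1 u v ∧ (∀ y, toLex y < toLex x.2 → u y = v y) ∧
      u x.2 = a ∧ v x.2 = c
  | .inr p => s.T _ p.1 p.2

lemma Holds.mono {s s' : State E} (h : ∀ m g g', s'.T m g g' → s.T m g g') :
    ∀ q, Holds s' q → Holds s q
  | .inl _, ⟨u, v, a, b⟩ => ⟨u, v, h _ _ _ a, b⟩
  | .inr _, a => h _ _ _ a

variable [Finite A]

lemma wqo (f : ℕ → Dat E) : ∃ i j, i < j ∧ ∀ s, Holds s (f j) → Holds s (f i) := by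
  obtain ⟨i, j, a, b, c⟩ := higman fun n =>
    (Sum.map (fun p => (Set.range p.1.2, p.2)) id (f n),
      Sum.elim (fun p => mark p.1.2) (fun _ => []) (f n))
  refine ⟨i, j, a, fun s => ?_⟩
  dsimp only at b c
  generalize f i = q at b c ⊢
  generalize f j = q' at b c ⊢
  rcases q with ⟨⟨m, x⟩, a, d⟩ | p <;> rcases q' with ⟨⟨m', x'⟩, a', d'⟩ | p' <;>
    simp only [Sum.map_inl, Sum.map_inr, Sum.inl.injEq, Sum.inr.injEq, Prod.mk.injEq, id,
      reduceCtorEq] at b
  · obtain ⟨b, rfl, rfl⟩ := b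
    obtain ⟨σ, h1, h2⟩ := exists_sigma c b
    rintro ⟨u, v, e1, e2, e3⟩
    exact ⟨_, _, subst s σ e1, fun y hy => e2 _ (h2 y hy), by dsimp only at e3 ⊢; rwa [h1]⟩
  · exact b ▸ id

lemma minEq {s s' : State E} (h1 : ∀ m g g', s'.T m g g' → s.T m g g')
    (h2 : ∀ m g, s.T m g g → s'.T m g g) (h3 : ∀ q, Holds s q → Holds s' q) {m : ℕ}
    {g g' : Fn A m} (h : s.T m g g') : s'.T m g fun x => E.d (g x) (g' x) := by
  classical
  set φ : Fn A m := fun x => E.d (g x) (g' x) with hφ
  have gg := s.trans h (s.symm h)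
  have gφ : s.T m g φ := by simpa using (s.closed m).d gg h
  rcases isEmpty_or_nonempty (Fin m) with hm | hm
  · obtain ⟨u, v, a, -, b, c⟩ := h3 (.inl (⟨m, isEmptyElim⟩, _, _)) ⟨g, φ, gφ,
      fun y hy => absurd hy (by rw [Subsingleton.elim y isEmptyElim]; exact lt_irrefl _), rfl, rfl⟩
    have e1 : u = g := funext fun y => by rw [Subsingleton.elim y isEmptyElim]; exact b
    have e2 : v = φ := funext fun y => by rw [Subsingleton.elim y isEmptyElim]; exact c
    rwa [e1, e2] at a
  have gg' := h2 m g gg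
  have hK : E.Closed {h | s'.T m g h} := fun a b c k ha hb hc hk => by
    simpa [E.id1] using s'.closed m g a g b g c (fun _ => g) k ha hb hc hk
  have act : ∀ u v, s'.T m u v → ∀ k ∈ {h | s'.T m g h},
      (fun x => E.p (k x) (u x) (v x)) ∈ {h | s'.T m g h} := fun u v a k hk => by
    simpa using (s'.closed m).p hk (s'.trans a (s'.symm a)) a
  have small : ∀ (I : Finset (Fin m → A)) (a : Fin m → A), I.card ≤ E.r →
      ∃ k ∈ {h | s'.T m g h}, ∀ x ∈ insert a I, k x = φ x := fun I a hI => by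
    obtain ⟨e⟩ : Nonempty (↥(insert a I) ↪ Fin (E.r + 1)) :=
      Function.Embedding.nonempty_of_card_le (by
        simpa using (Finset.card_insert_le a I).trans (Nat.succ_le_succ hI))
    let y : Fin (E.r + 1) → Fin m → A := Function.extend e Subtype.val fun _ => a
    let σ : Fin m → Fin (Nat.card (Fin (E.r + 1) → A)) := fun i =>
      Finite.equivFin _ fun k => y k i
    have b : s'.T _ (fun z => g (z ∘ σ)) fun z => φ (z ∘ σ) :=
      h3 (.inr (fun z => g (z ∘ σ), fun z => φ (z ∘ σ))) (subst s σ gφ)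
    refine ⟨_, act _ _ (subst s' (Function.invFun σ) b) g gg', fun x hx => ?_⟩
    have c : (x ∘ Function.invFun σ) ∘ σ = x := funext fun i => by
      have := congrFun ((Finite.equivFin _).injective (Function.invFun_eq ⟨i, rfl⟩ :
        σ (Function.invFun σ (σ i)) = σ i)) (e ⟨x, hx⟩)
      simp only [y, e.injective.extend_apply] at this
      exact this
    simp only [c, hφ, Edge.p_xx, Edge.d_d]
  have main : ∀ P : Finset (Fin m → A), (∀ y ∈ P, ∀ y', toLex y' < toLex y → y' ∈ P) →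
      ∃ k ∈ {h | s'.T m g h}, ∀ x ∈ P, k x = φ x := fun P => by
    refine Finset.induction_on_max_value (fun y : Fin m → A => toLex y) (motive := fun P =>
      (∀ y ∈ P, ∀ y', toLex y' < toLex y → y' ∈ P) → ∃ k ∈ {h | s'.T m g h}, ∀ x ∈ P, k x = φ x)
      P (fun _ => ⟨g, gg', by simp⟩) fun a P a1 a2 ih => ?_
    · intro hP
      have b : ∀ y ∈ insert a P, ∀ y', toLex y' < toLex y → y' ∈ P := fun y hy y' e =>
        (Finset.mem_insert.1 (hP y hy y' e)).resolve_left fun e' => by
          subst e'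
          rcases Finset.mem_insert.1 hy with rfl | hy
          · exact lt_irrefl _ e
          · exact (a2 y hy).not_gt e
      obtain ⟨k, k1, k2⟩ := ih fun y hy => b y (Finset.mem_insert_of_mem hy)
      obtain ⟨u, v, c1, c2, c3, c4⟩ := h3 (.inl (⟨m, a⟩, φ a, E.d (φ a) (k a)))
        ⟨φ, fun x => E.d (φ x) (k x), by
          simpa using (s.closed m).d (s.trans (s.symm gφ) gφ) (s.trans (s.symm gφ) (h1 _ _ _ k1)),
          fun y hy => ((congrArg (E.d (φ y)) (k2 y (b a (Finset.mem_insert_self _ _) y hy))).trans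
            (E.d_self _)).symm, rfl, rfl⟩
      obtain ⟨k', d1, d2, d3⟩ := Edge.ext hK φ P a (fun I _ hI =>
        (small I a hI).imp fun _ e => ⟨e.1, e.2 a (Finset.mem_insert_self _ _),
          fun x hx => e.2 x (Finset.mem_insert_of_mem hx)⟩) k1 k2 (act u v c1)
        (fun x hx => c2 x (lt_of_le_of_ne (a2 x hx) fun e => a1 (by
          rwa [toLex.injective e] at hx))) c3 c4
      exact ⟨k', d1, (Finset.forall_mem_insert _ _ _).2 ⟨d2, d3⟩⟩
  have := Fintype.ofFinite (Fin m → A)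
  obtain ⟨k, k1, k2⟩ := main Finset.univ fun _ _ _ _ => Finset.mem_univ _
  rwa [← funext fun x => k2 x (Finset.mem_univ x)]

lemma wf2 : WellFounded fun s' s : State E => (∀ m g g', s'.T m g g' → s.T m g g') ∧
    (∀ m g, s.T m g g → s'.T m g g) ∧
    ∃ m g g', s.T m g g' ∧ ¬ s'.T m g fun x => E.d (g x) (g' x) := by
  refine wellFounded_iff_isEmpty_descending_chain.2 ⟨fun ⟨f, hf⟩ => ?_⟩
  have : ∀ n, ∃ q, Holds (f n) q ∧ ¬Holds (f (n + 1)) q := fun n => by
    by_contra! k
    obtain ⟨a, b, m, g, g', c, d⟩ := hf n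
    exact d (minEq a b k c)
  choose q a b using this
  obtain ⟨i, j, c, d⟩ := wqo q
  have mono : ∀ n, i + 1 ≤ n → Holds (f n) (q i) → Holds (f (i + 1)) (q i) := fun n hn => by
    induction hn with
    | refl => exact id
    | step _ ih => exact fun e => ih (Holds.mono (hf _).1 _ e)
  exact b i (mono j c (d _ (a j)))

end Wf

theorem wf : WfStmt := fun A _ E => by
  obtain ⟨_, -⟩ := exists_wellFoundedLT A
  suffices ∀ O, ∀ s : State E, s.O = O → Acc State.Lt s from ⟨fun s => this _ s rfl⟩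
  intro O
  induction O using WellFoundedGT.induction with
  | ind O ihO =>
    refine fun s => Wf.wf2.induction (C := fun s : State E => s.O = O → Acc State.Lt s) s
      fun s ih e => ⟨_, ?_⟩
    rintro s' (h | ⟨h1, h⟩)
    · exact ihO _ (e ▸ h) s' rfl
    · exact ih s' h (h1.trans e)

end Pool.Agent.MP_6fd87c_lc.H78
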