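import Pool.Agent.MP_6fd87c_lc.H78.Core
import Pool.Agent.MP_6fd87c_lc.H78.Edge
import Pool.Agent.MP_6fd87c_lc.H78.Count
import Pool.Agent.MP_6fd87c_lc.H78.Interp
import Pool.Agent.MP_6fd87c_lc.H78.Wf
import Pool.Agent.MP_6fd87c_lc.H78.Short

/-! Few subpowers is equivalent to short pp-definitions. -/

namespace Pool.Agent.MP_6fd87c_lc.H78

open Pool.Agent.MP_6fd87c_lc.H6

theorem short_iff (A : Type) [Finite A] (Γ : Lang A) : Short Γ ↔ FewSubpowers Γ :=
  ⟨count A Γ, fun h => short (core wf) A Γ (edge A Γ h)⟩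

theorem short_interp (A B : Type) [Finite A] [Finite B] (Γ : Lang A) (Δ : Lang B)
    (h : Interp Γ Δ) (hΓ : Short Γ) : Short Δ :=
  (short_iff B Δ).2 (interp A B Γ Δ h ((short_iff A Γ).1 hΓ))

end Pool.Agent.MP_6fd87c_lc.H78
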