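import Pool.Agent.MP_6fd87c_lc.H78.Base
import Pool.Agent.MP_6fd87c_lc.H78.Defs

/-! States, windows and the statements of the parts of the proof. -/

namespace Pool.Agent.MP_6fd87c_lc.H78

open Pool.Agent.MP_6fd87c_lc.H6

variable {A : Type}

/-- Operations of arity `m`. -/
abbrev Fn (A : Type) (m : ℕ) := (Fin m → A) → A

/-- Substitution of variables and constants. -/
def ev {m t : ℕ} (τ : Fin m → Fin t ⊕ A) (z : Fin t → A) : Fin m → A :=
  fun i => Sum.elim z id (τ i)

/-- A state: context letters `O` and a family of symmetric, transitive relations on operations,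
closed under the edge operation and under substitution of variables and letters of `O`. -/
structure State (E : Edge A) where
  /-- context letters -/
  O : Set A
  /-- the relations -/
  T : ∀ m, Fn A m → Fn A m → Prop
  symm : ∀ {m g g'}, T m g g' → T m g' g
  trans : ∀ {m g g' g''}, T m g g' → T m g' g'' → T m g g''
  closed : ∀ m, E.RClosed (T m)
  subst : ∀ {m t} (τ : Fin m → Fin t ⊕ A), (∀ i a, τ i = Sum.inr a → a ∈ O) →
    ∀ {g g'}, T m g g' → T t (fun z => g (ev τ z)) (fun z => g' (ev τ z))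

/-- The state `s'` is lower than the state `s`. -/
def State.Lt [Finite A] {E : Edge A} (s' s : State E) : Prop :=
  s.O ⊂ s'.O ∨ (s'.O = s.O ∧ (∀ m g g', s'.T m g g' → s.T m g g') ∧
    (∀ m g, s.T m g g → s'.T m g g) ∧
    ∃ m g g', s.T m g g' ∧ ¬ s'.T m g fun x => E.d (g x) (g' x))

/-- A window with constants in `O` and at most `t` variables. -/
def Adm (O : Set A) (t : ℕ) {m : ℕ} (ρ : Fin m → Fin m ⊕ A) : Prop :=
  (∀ i a, ρ i = Sum.inr a → a ∈ O) ∧
    ∃ J : Finset (Fin m), J.card ≤ t ∧ ∀ i j, ρ i = Sum.inl j → j ∈ J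

/-- Local to global matching in a state with polynomially many windows. -/
def State.Match [Finite A] {E : Edge A} (s : State E) : Prop :=
  ∃ t C : ℕ, ∀ (m : ℕ) (X : Finset (Fin m → A)), ∃ W : Finset (Fin m → Fin m ⊕ A),
    (∀ ρ ∈ W, Adm s.O t ρ) ∧ W.card ≤ (X.card + m + 2) ^ C ∧
    ∀ g f : Fn A m, s.T m g g →
      (∀ ρ ∈ W, s.T m (fun z => g (ev ρ z)) fun z => f (ev ρ z)) →
      ∃ g', s.T m g g' ∧ ∀ x ∈ X, g' x = E.d (g x) (f x)

/-- `Γ` has an edge polymorphism. -/
def HasEdge (Γ : Lang A) : Prop :=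
  ∃ E : Edge A, IsPol Γ fun z : Fin 3 ⊕ Fin E.r → A =>
    E.e (z (Sum.inl 0)) (z (Sum.inl 1)) (z (Sum.inl 2)) fun j => z (Sum.inr j)

/-- Few subpowers give an edge polymorphism. -/
def EdgeStmt : Prop :=
  ∀ (A : Type) [Finite A] (Γ : Lang A), FewSubpowers Γ → HasEdge Γ

/-- Short definitions give few subpowers. -/
def CountStmt : Prop :=
  ∀ (A : Type) [Finite A] (Γ : Lang A), Short Γ → FewSubpowers Γ

/-- Few subpowers pass to pp-interpretations. -/
def InterpStmt : Prop :=
  ∀ (A B : Type) [Finite A] [Finite B] (Γ : Lang A) (Δ : Lang B),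
    Interp Γ Δ → FewSubpowers Γ → FewSubpowers Δ

/-- The order of states is well founded. -/
def WfStmt : Prop :=
  ∀ (A : Type) [Finite A] (E : Edge A), WellFounded (State.Lt (E := E))

/-- Matching holds in every state. -/
def CoreStmt : Prop :=
  ∀ (A : Type) [Finite A] (E : Edge A) (s : State E), s.Match

/-- An edge polymorphism gives short definitions. -/
def ShortStmt : Prop :=
  ∀ (A : Type) [Finite A] (Γ : Lang A), HasEdge Γ → Short Γ

end Pool.Agent.MP_6fd87c_lc.H78
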