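import Pool.Agent.MP_6fd87c_lc.H78.Spec

/-! Sub-states and the patching lemma. -/

namespace Pool.Agent.MP_6fd87c_lc.H78

open Relation

variable {A : Type} {E : Edge A}

lemma tg_map {α β : Type} {r : α → α → Prop} {p : β → β → Prop} (f : α → β)
    (h : ∀ a b, r a b → p (f a) (f b)) {a b : α} (hab : TransGen r a b) :
    TransGen p (f a) (f b) := by
  induction hab with
  | single hac => exact .single (h _ _ hac)
  | tail _ hcd hac => exact .tail hac (h _ _ hcd)

lemma rclosed_transGen {Ω : Type} {T : (Ω → A) → (Ω → A) → Prop} (hT : E.RClosed T)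
    (hl : ∀ {a b}, T a b → T a a) (hr : ∀ {a b}, T a b → T b b) :
    E.RClosed (TransGen T) := by
  classical
  have hl' : ∀ {a b}, TransGen T a b → T a a := fun h => by
    induction h with
    | single h => exact hl h
    | tail _ _ ih => exact ih
  have hr' : ∀ {a b}, TransGen T a b → T b b := fun h => by
    cases h with
    | single h => exact hr h
    | tail _ h => exact hr h
  intro a a' b b' c c' h h' ha hb hc hh
  have s1 := tg_map (p := T) (fun a : Ω → A => fun x => E.e (a x) (b x) (c x) fun j => h j x)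
    (fun u v huv => hT _ _ _ _ _ _ h h huv (hl' hb) (hl' hc) fun j => hl' (hh j)) ha
  have s2 := tg_map (p := T) (fun b : Ω → A => fun x => E.e (a' x) (b x) (c x) fun j => h j x)
    (fun u v huv => hT _ _ _ _ _ _ h h (hr' ha) huv (hl' hc) fun j => hl' (hh j)) hb
  have s3 := tg_map (p := T) (fun c : Ω → A => fun x => E.e (a' x) (b' x) (c x) fun j => h j x)
    (fun u v huv => hT _ _ _ _ _ _ h h (hr' ha) (hr' hb) huv fun j => hl' (hh j)) hc
  have s4 : ∀ s : Finset (Fin E.r), TransGen T
      (fun x => E.e (a' x) (b' x) (c' x) fun j => h j x)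
      (fun x => E.e (a' x) (b' x) (c' x) fun j => (if j ∈ s then h' j else h j) x) := by
    intro s
    induction s using Finset.induction_on with
    | empty =>
      simpa using TransGen.single
        (hT _ _ _ _ _ _ h h (hr' ha) (hr' hb) (hr' hc) fun j => hl' (hh j))
    | insert i s hi ih =>
      refine ih.trans ?_
      have := tg_map (p := T) (fun w : Ω → A => fun x => E.e (a' x) (b' x) (c' x)
          fun j => (if j = i then w else if j ∈ s then h' j else h j) x)
        (fun u v huv => hT _ _ _ _ _ _ _ _ (hr' ha) (hr' hb) (hr' hc) fun j => by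
          split_ifs
          exacts [huv, hr' (hh j), hl' (hh j)]) (hh i)
      convert this using 4 with x j x j
      · by_cases hj : j = i
        · subst hj; simp [hi]
        · simp [hj]
      · by_cases hj : j = i
        · subst hj; simp
        · simp [hj]
  simpa using s1.trans (s2.trans (s3.trans (s4 Finset.univ)))

/-- Fix the first argument. -/
def fix {m : ℕ} (G : Fn A (m + 1)) (c : A) : Fn A m := fun w => G (Fin.cons c w)

open Classical in
/-- Lift of a substitution: the letter `c` becomes the new first variable. -/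
noncomputable def lift {m t : ℕ} (τ : Fin m → Fin t ⊕ A) (c : A) :
    Fin (m + 1) → Fin (t + 1) ⊕ A :=
  Fin.cons (Sum.inl 0) fun i => Sum.elim (fun j => Sum.inl j.succ)
    (fun a => if a = c then Sum.inl 0 else Sum.inr a) (τ i)

lemma ev_lift_cons {m t : ℕ} (τ : Fin m → Fin t ⊕ A) (c : A) (z : Fin t → A) :
    ev (lift τ c) (Fin.cons c z) = Fin.cons c (ev τ z) := by
  funext i
  refine Fin.cases rfl (fun i => ?_) i
  simp only [ev, lift, Fin.cons_succ]
  rcases τ i with j | a
  · simp
  · by_cases h : a = c <;> simp [h]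

lemma ev_lift_zero {m t : ℕ} (τ : Fin m → Fin t ⊕ A) (c : A) (z : Fin (t + 1) → A) :
    ev (lift τ c) z 0 = z 0 := rfl

lemma lift_const {m t : ℕ} {τ : Fin m → Fin t ⊕ A} {c : A} {O : Set A}
    (h : ∀ i a, τ i = Sum.inr a → a ∈ insert c O) (i : Fin (m + 1)) (a : A)
    (hi : lift τ c i = Sum.inr a) : a ∈ O := by
  revert hi
  refine Fin.cases (fun hi => by simp [lift] at hi) (fun i hi => ?_) i
  simp only [lift, Fin.cons_succ] at hi
  rcases hτ : τ i with j | b
  · simp [hτ] at hi
  · by_cases hb : b = c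
    · simp [hτ, hb] at hi
    · simp only [hτ, Sum.elim_inr, if_neg hb, Sum.inr.injEq] at hi
      exact hi ▸ (h i b hτ).resolve_left hb

namespace State

variable (s : State E)

lemma left {m} {g g' : Fn A m} (h : s.T m g g') : s.T m g g := s.trans h (s.symm h)

lemma right {m} {g g' : Fn A m} (h : s.T m g g') : s.T m g' g' := s.trans (s.symm h) h

lemma fix_T {m} {G G' : Fn A (m + 1)} {c : A} (hc : c ∈ s.O) (h : s.T (m + 1) G G') :
    s.T m (fix G c) (fix G' c) := by
  have := s.subst (t := m) (Fin.cons (Sum.inr c) fun i => Sum.inl i) (fun i a hi => by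
    revert hi
    refine Fin.cases (fun hi => ?_) (fun i hi => by simp at hi) i
    simp only [Fin.cons_zero, Sum.inr.injEq] at hi
    exact hi ▸ hc) h
  have e : ∀ z : Fin m → A, ev (Fin.cons (Sum.inr c) fun i => Sum.inl i) z = Fin.cons c z :=
    fun z => funext fun i => Fin.cases rfl (fun _ => rfl) i
  simp only [e] at this
  exact this

lemma dup_T {m} {G G' : Fn A (m + 1)} (i : Fin m) (h : s.T (m + 1) G G') :
    s.T m (fun x => G (Fin.cons (x i) x)) (fun x => G' (Fin.cons (x i) x)) := by
  have := s.subst (t := m) (Fin.cons (Sum.inl i) fun i => Sum.inl i) (fun i a hi => by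
    revert hi
    exact Fin.cases (fun hi => by simp at hi) (fun i hi => by simp at hi) i) h
  have e : ∀ z : Fin m → A, ev (Fin.cons (Sum.inl i) fun i => Sum.inl i) z = Fin.cons (z i) z :=
    fun z => funext fun i => Fin.cases rfl (fun _ => rfl) i
  simpa only [e] using this

lemma tail_T {m} {g g' : Fn A m} (h : s.T m g g') :
    s.T (m + 1) (fun x => g (Fin.tail x)) (fun x => g' (Fin.tail x)) :=
  s.subst (t := m + 1) (fun i => Sum.inl i.succ) (fun i a hi => by simp at hi) h

/-- Pairs obtained by fixing the first letter `c` in related operations that agree whenever the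
first letter is in `U`. -/
def Dir (U : Set A) (c : A) (m : ℕ) (g g' : Fn A m) : Prop :=
  ∃ G G' : Fn A (m + 1), s.T (m + 1) G G' ∧ (∀ x, x 0 ∈ U → G x = G' x) ∧
    g = fix G c ∧ g' = fix G' c

variable {s}

lemma Dir.symm {U c m g g'} (h : s.Dir U c m g g') : s.Dir U c m g' g := by
  obtain ⟨G, G', h1, h2, h3, h4⟩ := h
  exact ⟨G', G, s.symm h1, fun x hx => (h2 x hx).symm, h4, h3⟩

lemma Dir.left {U c m g g'} (h : s.Dir U c m g g') : s.Dir U c m g g := by
  obtain ⟨G, G', h1, -, h3, -⟩ := h
  exact ⟨G, G, s.left h1, fun _ _ => rfl, h3, h3⟩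

lemma dir_closed (U : Set A) (c : A) (m : ℕ) : E.RClosed (s.Dir U c m) := by
  rintro _ _ _ _ _ _ h h' ⟨a, a', a1, a2, rfl, rfl⟩ ⟨b, b', b1, b2, rfl, rfl⟩
    ⟨k, k', k1, k2, rfl, rfl⟩ hh
  choose H H' h1 h2 h3 h4 using hh
  refine ⟨_, _, s.closed _ _ _ _ _ _ _ H H' a1 b1 k1 h1, fun x hx => ?_, ?_, ?_⟩
  · simp only [a2 x hx, b2 x hx, k2 x hx, fun j => h2 j x hx]
  · funext x
    simp only [fix, h3]
  · funext x
    simp only [fix, h4]

variable (s)

/-- The sub-state for the lower letters `U` and the letter `c`. -/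
def sub (U : Set A) (c : A) : State E where
  O := insert c s.O
  T m := TransGen (s.Dir U c m)
  symm h := by
    induction h with
    | single h => exact .single h.symm
    | tail _ h ih => exact (TransGen.single h.symm).trans ih
  trans := TransGen.trans
  closed m := rclosed_transGen (dir_closed U c m) Dir.left fun h => h.symm.left
  subst τ hτ g g' h := by
    refine tg_map (fun (g : Fn A _) z => g (ev τ z)) ?_ h
    rintro _ _ ⟨G, G', h1, h2, rfl, rfl⟩
    refine ⟨_, _, s.subst (lift τ c) (lift_const hτ) h1, fun x hx => h2 _ hx, ?_, ?_⟩ <;>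
    · funext z
      simp only [fix, ev_lift_cons]

variable {s} [Finite A]

lemma dir_of_sub {U c m g g'} (h : (s.sub U c).T m g g') :
    s.Dir U c m g fun x => E.d (g x) (g' x) := by
  have hc := dir_closed (s := s) U c m
  induction h with
  | single h => simpa using hc.d h.left h
  | tail _ h ih =>
    have h1 := hc.d ih.left h
    simpa using hc.p ih.left ih.symm h1

/-- `U` is closed with respect to the letter `c`. -/
def Cl (s : State E) (U : Set A) (c : A) : Prop :=
  c ∈ s.O ∧ ∀ m g g', s.T m g g' → s.Dir U c m g fun x => E.d (g x) (g' x)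

lemma sub_lt {U : Set A} {c : A} (h : ¬ s.Cl U c) : (s.sub U c).Lt s := by
  by_cases hc : c ∈ s.O
  · refine Or.inr ⟨Set.insert_eq_of_mem hc, fun m g g' hg => ?_, fun m g hg => ?_, ?_⟩
    · induction hg with
      | single h =>
        obtain ⟨G, G', h1, -, rfl, rfl⟩ := h
        exact s.fix_T hc h1
      | tail _ h ih =>
        obtain ⟨G, G', h1, -, rfl, rfl⟩ := h
        exact s.trans ih (s.fix_T hc h1)
    · exact .single ⟨_, _, s.tail_T hg, fun _ _ => rfl, rfl, rfl⟩
    · by_contra hn
      refine h ⟨hc, fun m g g' hg => ?_⟩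
      have : (s.sub U c).T m g fun x => E.d (g x) (g' x) := by
        by_contra h1
        exact hn ⟨m, g, g', hg, h1⟩
      simpa using dir_of_sub this
  · exact Or.inl (Set.ssubset_insert hc)

theorem patch {U V : Set A} (hV : ∀ c ∈ V, s.Cl U c) :
    ∀ (m : ℕ) (i : Fin m) (g g1 : Fn A m), s.T m g g1 → ∃ g3, s.T m g g3 ∧
      (∀ x, x i ∈ V → g3 x = g x) ∧ ∀ x, x i ∈ U → g3 x = E.d (g x) (g1 x) := by
  induction V, V.toFinite using Set.Finite.induction_on with
  | empty =>
    intro m i g g1 h
    exact ⟨_, by simpa using (s.closed m).d (s.left h) h, by simp, fun _ _ => rfl⟩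
  | @insert c V _ _ ih =>
    intro m i g g1 h
    obtain ⟨hc, hd⟩ := hV c (Set.mem_insert _ _)
    obtain ⟨G, G1, h1, h2, h3, h4⟩ := hd m g g1 h
    obtain ⟨G3, k1, k2, k3⟩ := ih (fun c hc => hV c (Set.mem_insert_of_mem _ hc)) (m + 1) i.succ
      G G1 h1
    have a1 : s.T m g (fix G3 c) := h3 ▸ s.fix_T hc k1
    have a2 := s.dup_T i k1
    have gg := s.left h
    have e3 : ∀ x, G (Fin.cons c x) = g x := fun x => by rw [h3]; rfl
    have e4 : ∀ x, G1 (Fin.cons c x) = E.d (g x) (g1 x) := fun x => (congrFun h4 x).symm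
    refine ⟨_, by
      simpa using (s.closed m).p gg ((s.closed m).p gg (s.left a2) a2) ((s.closed m).d gg a1),
      fun x hx => ?_, fun x hx => ?_⟩
    · rcases hx with hx | hx
      · simp [hx, e3, fix]
      · have b1 := k2 (Fin.cons c x) hx
        have b2 := k2 (Fin.cons (x i) x) hx
        simp [fix, b1, b2, e3]
    · have b1 := k3 (Fin.cons c x) hx
      have b2 := k3 (Fin.cons (x i) x) hx
      have b3 := h2 (Fin.cons (x i) x) hx
      simp [fix, b1, b2, ← b3, e3, e4]

end State

end Pool.Agent.MP_6fd87c_lc.H78
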