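import Pool.Agent.MP_6fd87c_lc.H78.Sub

/-! Windows, polynomial bounds, matching on finite sets. -/

namespace Pool.Agent.MP_6fd87c_lc.H78

variable {A : Type}

/-- Polynomially bounded functions. -/
def PB (F : ℕ → ℕ) : Prop := ∃ C, ∀ y, 2 ≤ y → F y ≤ y ^ C

lemma PB.const (c : ℕ) : PB fun _ => c :=
  ⟨c, fun _ hy => (Nat.lt_two_pow_self.le).trans (Nat.pow_le_pow_left hy c)⟩

lemma PB.id : PB fun y => y := ⟨1, fun y _ => by simp⟩

lemma PB.mul {F G : ℕ → ℕ} (hF : PB F) (hG : PB G) : PB fun y => F y * G y := by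
  obtain ⟨a, ha⟩ := hF
  obtain ⟨b, hb⟩ := hG
  exact ⟨a + b, fun y hy => by rw [pow_add]; exact Nat.mul_le_mul (ha y hy) (hb y hy)⟩

lemma PB.add {F G : ℕ → ℕ} (hF : PB F) (hG : PB G) : PB fun y => F y + G y := by
  obtain ⟨a, ha⟩ := hF
  obtain ⟨b, hb⟩ := hG
  refine ⟨a + b + 1, fun y hy => ?_⟩
  have h1 : y ^ a ≤ y ^ (a + b) := Nat.pow_le_pow_right (by omega) (by omega)
  have h2 : y ^ b ≤ y ^ (a + b) := Nat.pow_le_pow_right (by omega) (by omega)
  have h3 := ha y hy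
  have h4 := hb y hy
  rw [pow_succ]
  nlinarith [Nat.zero_le (y ^ (a + b))]

lemma PB.pow {F : ℕ → ℕ} (hF : PB F) (k : ℕ) : PB fun y => F y ^ k := by
  obtain ⟨a, ha⟩ := hF
  exact ⟨a * k, fun y hy => by rw [pow_mul]; exact Nat.pow_le_pow_left (ha y hy) k⟩

lemma Adm.mono {O : Set A} {t t' m : ℕ} {ρ : Fin m → Fin m ⊕ A} (h : Adm O t ρ) (ht : t ≤ t') :
    Adm O t' ρ := by
  obtain ⟨h1, J, h2, h3⟩ := h
  exact ⟨h1, J, h2.trans ht, h3⟩

lemma Adm.lift {O : Set A} {c : A} {t m : ℕ} {ρ : Fin m → Fin m ⊕ A} (h : Adm (insert c O) t ρ) :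
    Adm O (t + 1) (lift ρ c) := by
  classical
  obtain ⟨h1, J, h2, h3⟩ := h
  refine ⟨lift_const h1, insert 0 (J.image Fin.succ),
    (Finset.card_insert_le _ _).trans (by have := Finset.card_image_le (s := J) (f := Fin.succ); omega),
    fun i => Fin.cases (fun j hj => ?_) (fun i j hj => ?_) i⟩
  · simp only [H78.lift, Fin.cons_zero, Sum.inl.injEq] at hj
    simp [← hj]
  · simp only [H78.lift, Fin.cons_succ] at hj
    rcases hρ : ρ i with l | a
    · simp only [hρ, Sum.elim_inl, Sum.inl.injEq] at hj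
      exact Finset.mem_insert_of_mem (Finset.mem_image.2 ⟨l, h3 i l hρ, hj⟩)
    · by_cases ha : a = c
      · simp only [hρ, Sum.elim_inr, if_pos ha, Sum.inl.injEq] at hj
        simp [← hj]
      · simp [hρ, ha] at hj

/-- The window on one more position, with the constant `b` in front. -/
def front {m : ℕ} (ρ : Fin m → Fin m ⊕ A) (b : A) : Fin (m + 1) → Fin (m + 1) ⊕ A :=
  Fin.cons (Sum.inr b) fun i => Sum.map Fin.succ id (ρ i)

lemma ev_front {m : ℕ} (ρ : Fin m → Fin m ⊕ A) (b : A) (z : Fin (m + 1) → A) :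
    ev (front ρ b) z = Fin.cons b (ev ρ (Fin.tail z)) := by
  funext i
  refine Fin.cases rfl (fun i => ?_) i
  simp only [ev, front, Fin.cons_succ]
  rcases ρ i with j | a <;> rfl

lemma Adm.front {O : Set A} {b : A} (hb : b ∈ O) {t m : ℕ} {ρ : Fin m → Fin m ⊕ A}
    (h : Adm O t ρ) : Adm O t (front ρ b) := by
  classical
  obtain ⟨h1, J, h2, h3⟩ := h
  refine ⟨fun i => Fin.cases (fun a ha => ?_) (fun i a ha => ?_) i, J.image Fin.succ,
    Finset.card_image_le.trans h2, fun i => Fin.cases (fun j hj => ?_) (fun i j hj => ?_) i⟩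
  · simp only [H78.front, Fin.cons_zero, Sum.inr.injEq] at ha
    exact ha ▸ hb
  · simp only [H78.front, Fin.cons_succ] at ha
    rcases hρ : ρ i with l | a'
    · simp [hρ] at ha
    · simp only [hρ, Sum.map_inr, id, Sum.inr.injEq] at ha
      exact ha ▸ h1 i a' hρ
  · simp [H78.front] at hj
  · simp only [H78.front, Fin.cons_succ] at hj
    rcases hρ : ρ i with l | a'
    · simp only [hρ, Sum.map_inl, Sum.inl.injEq] at hj
      exact Finset.mem_image.2 ⟨l, h3 i l hρ, hj⟩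
    · simp [hρ] at hj

/-- The window with the first position replaced by the constant `b`. -/
def shadow {m : ℕ} (ρ : Fin (m + 1) → Fin (m + 1) ⊕ A) (b : A) :
    Fin (m + 1) → Fin (m + 1) ⊕ A := Fin.cons (Sum.inr b) (Fin.tail ρ)

lemma ev_shadow {m : ℕ} (ρ : Fin (m + 1) → Fin (m + 1) ⊕ A) (b : A) (z : Fin (m + 1) → A) :
    ev (shadow ρ b) z = Fin.cons b (Fin.tail (ev ρ z)) :=
  funext fun i => Fin.cases rfl (fun _ => rfl) i

lemma Adm.shadow {O : Set A} {b : A} (hb : b ∈ O) {t m : ℕ} {ρ : Fin (m + 1) → Fin (m + 1) ⊕ A}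
    (h : Adm O t ρ) : Adm O t (shadow ρ b) := by
  obtain ⟨h1, J, h2, h3⟩ := h
  refine ⟨fun i => Fin.cases (fun a ha => ?_) (fun i a ha => h1 _ a ha) i, J, h2,
    fun i => Fin.cases (fun j hj => ?_) (fun i j hj => h3 _ j hj) i⟩
  · simp only [H78.shadow, Fin.cons_zero, Sum.inr.injEq] at ha
    exact ha ▸ hb
  · simp [H78.shadow] at hj

variable [Finite A]

lemma Adm.image {O : Set A} {t m : ℕ} {ρ : Fin m → Fin m ⊕ A} (h : Adm O t ρ) :
    ∃ Y : Finset (Fin m → A), Y.card ≤ (Nat.card A + 1) ^ t ∧ ∀ z, ev ρ z ∈ Y := by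
  classical
  obtain ⟨-, J, h2, h3⟩ := h
  have := Fintype.ofFinite A
  let F : (J → A) → Fin m → A := fun w i =>
    match hρ : ρ i with
    | Sum.inl j => w ⟨j, h3 i j hρ⟩
    | Sum.inr a => a
  refine ⟨Finset.univ.image F, Finset.card_image_le.trans ?_, fun z => ?_⟩
  · rw [Finset.card_univ, Fintype.card_fun, Fintype.card_coe, Nat.card_eq_fintype_card]
    exact (Nat.pow_le_pow_left (Nat.le_succ _) _).trans (Nat.pow_le_pow_right (by omega) h2)
  · refine Finset.mem_image.2 ⟨fun j => z j, Finset.mem_univ _, funext fun i => ?_⟩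
    simp only [F, ev]
    split <;> simp [*]

lemma small_windows (O : Set A) (k m : ℕ) (Z : Finset (Fin (m + 1) → A)) :
    ∃ W : Finset (Fin (m + 1) → Fin (m + 1) ⊕ A),
      (∀ ρ ∈ W, Adm O (2 * (Nat.card A + 1) ^ k) ρ ∧ ∀ z, ev ρ z 0 = z 0) ∧
      W.card ≤ (Z.card + 1) ^ k ∧
      ∀ I ⊆ Z, I.card ≤ k → ∃ ρ ∈ W, ∀ y ∈ I, ev ρ y = y := by
  classical
  have := Fintype.ofFinite A
  let key : (Fin k → Option Z) → Fin (m + 1) → Bool × (Fin k → Option A) := fun φ i =>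
    (decide (i = 0), fun l => (φ l).map fun y => y.1 i)
  let win : (Fin k → Option Z) → Fin (m + 1) → Fin (m + 1) ⊕ A := fun φ i =>
    Sum.inl (Function.invFun (key φ) (key φ i))
  have hk : ∀ φ i, key φ (Function.invFun (key φ) (key φ i)) = key φ i := fun φ i =>
    Function.invFun_eq ⟨i, rfl⟩
  refine ⟨Finset.univ.image win, fun ρ hρ => ?_, Finset.card_image_le.trans (by simp), ?_⟩
  · obtain ⟨φ, -, rfl⟩ := Finset.mem_image.1 hρ
    refine ⟨⟨fun i a h => by simp [win] at h, Finset.univ.image (Function.invFun (key φ)),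
      Finset.card_image_le.trans (by simp), fun i j h => ?_⟩, fun z => ?_⟩
    · simp only [win, Sum.inl.injEq] at h
      exact Finset.mem_image.2 ⟨_, Finset.mem_univ _, h⟩
    · have := congrArg Prod.fst (hk φ 0)
      simp only [key, decide_true, decide_eq_true_eq] at this
      simp only [ev, win, Sum.elim_inl, key, decide_true, this]
  · intro I hI hc
    obtain ⟨f⟩ : Nonempty (I ↪ Fin k) := Function.Embedding.nonempty_of_card_le (by simpa using hc)
    let φ : Fin k → Option Z := fun l => (Function.partialInv f l).map fun y => ⟨y.1, hI y.2⟩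
    refine ⟨win φ, Finset.mem_image_of_mem _ (Finset.mem_univ _), fun y hy => funext fun i => ?_⟩
    have h1 := congrFun (congrArg Prod.snd (hk φ i)) (f ⟨y, hy⟩)
    have h2 : Function.partialInv f (f ⟨y, hy⟩) = some ⟨y, hy⟩ :=
      Function.partialInv_left f.injective _
    simp only [key, φ, h2, Option.map_some, Option.some.injEq] at h1
    exact h1

theorem match_all {E : Edge A} {Ω : Type} [DecidableEq Ω] {K : Set (Ω → A)} (hK : E.Closed K)
    (φ : Ω → A) (Z0 Z : Finset Ω)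
    (small : ∀ I ⊆ Z0 ∪ Z, I.card ≤ E.r + 1 → ∃ h ∈ K, ∀ x ∈ I, h x = φ x)
    (base : ∃ g ∈ K, ∀ x ∈ Z0, g x = φ x)
    (fork : ∀ P : Finset Ω, Z0 ⊆ P → P ⊆ Z0 ∪ Z → ∀ a ∈ Z, ∀ g ∈ K, ∀ h ∈ K,
      (∀ x ∈ P, g x = φ x) → h a = φ a → ∃ u v : Ω → A,
        (∀ h ∈ K, (fun x => E.p (h x) (u x) (v x)) ∈ K) ∧ (∀ x ∈ P, u x = v x) ∧
        u a = φ a ∧ v a = E.d (φ a) (g a)) :
    ∃ g ∈ K, ∀ x ∈ Z0 ∪ Z, g x = φ x := by
  suffices H : ∀ Q : Finset Ω, Q ⊆ Z → ∃ g ∈ K, ∀ x ∈ Z0 ∪ Q, g x = φ x from H Z subset_rfl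
  intro Q
  induction Q using Finset.induction_on with
  | empty => simpa using base
  | insert a Q _ ih =>
    intro hQ
    have ha : a ∈ Z := hQ (Finset.mem_insert_self _ _)
    have hQ' : Q ⊆ Z := (Finset.subset_insert _ _).trans hQ
    have hP : Z0 ∪ Q ⊆ Z0 ∪ Z := Finset.union_subset_union_right hQ'
    obtain ⟨g, hg, hgP⟩ := ih hQ'
    have sm : ∀ I : Finset Ω, I ⊆ Z0 ∪ Q → I.card ≤ E.r →
        ∃ h ∈ K, h a = φ a ∧ ∀ x ∈ I, h x = φ x := fun I hI hc => by
      obtain ⟨h, h1, h2⟩ := small (insert a I)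
        (Finset.insert_subset (Finset.mem_union_right _ ha) (hI.trans hP))
        ((Finset.card_insert_le _ _).trans (by omega))
      exact ⟨h, h1, h2 a (Finset.mem_insert_self _ _),
        fun x hx => h2 x (Finset.mem_insert_of_mem hx)⟩
    obtain ⟨h, hh, hha, -⟩ := sm ∅ (Finset.empty_subset _) (by simp)
    obtain ⟨u, v, h1, h2, h3, h4⟩ := fork _ Finset.subset_union_left hP a ha g hg h hh hgP hha
    obtain ⟨w, hw, hwa, hwP⟩ := Edge.ext hK φ (Z0 ∪ Q) a sm hg hgP h1 h2 h3 h4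
    refine ⟨w, hw, fun x hx => ?_⟩
    rcases Finset.mem_union.1 hx with hx | hx
    · exact hwP x (Finset.mem_union_left _ hx)
    · rcases Finset.mem_insert.1 hx with rfl | hx
      · exact hwa
      · exact hwP x (Finset.mem_union_right _ hx)

end Pool.Agent.MP_6fd87c_lc.H78
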